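import Pool.Agent.H211R2.MC.Rk

set_option autoImplicit false

/-! Connectivity of finite matroids: rank definition, pairs of elements in circuits, Tutte's lemma. -/

namespace H211.MC

open Set Matroid

variable {α : Type*} {M : Matroid α}

/-- connectivity by ranks -/
def Conn (M : Matroid α) : Prop :=
  ∀ A ⊆ M.E, A.Nonempty → (M.E \ A).Nonempty → rk M M.E < rk M A + rk M (M.E \ A)

/-- every element is in a circuit with every other one -/
def Pair (M : Matroid α) : Prop :=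
  ∀ e ∈ M.E, ∀ f ∈ M.E, ∃ C : Set α, M.IsCircuit C ∧ e ∈ C ∧ f ∈ C

lemma Pair.conn [M.Finite] (h : Pair M) : Conn M := by
  intro A hA hAne hBne
  by_contra hcon
  push Not at hcon
  obtain ⟨a, ha⟩ := hAne
  obtain ⟨b, hb⟩ := hBne
  obtain ⟨C, hC, haC, hbC⟩ := h a (hA ha) b hb.1
  have hEq : A ∪ (M.E \ A) = M.E := union_sdiff_cancel hA
  rcases skew_circuit M (A := A) (B := M.E \ A) (by rw [hEq]; exact hcon) hC
    (by rw [hEq]; exact hC.subset_ground) with h1 | h1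
  · exact hb.2 (h1 hbC)
  · exact (h1 haC).2 ha

/-- transitivity for circuits -/
lemma circuit_trans [M.Finite] {C₁ C₂ : Set α} {e g : α} (h1 : M.IsCircuit C₁) (h2 : M.IsCircuit C₂)
    (he : e ∈ C₁) (hg : g ∈ C₂) (hne : (C₁ ∩ C₂).Nonempty) :
    ∃ C, M.IsCircuit C ∧ e ∈ C ∧ g ∈ C := by
  classical
  obtain ⟨n, hn⟩ : ∃ n, n = (C₁ ∪ C₂).ncard := ⟨_, rfl⟩
  induction n using Nat.strong_induction_on generalizing C₁ C₂ with
  | _ n ih =>
  subst hn
  by_cases hg1 : g ∈ C₁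
  · exact ⟨C₁, h1, he, hg1⟩
  by_cases he2 : e ∈ C₂
  · exact ⟨C₂, h2, he2, hg⟩
  obtain ⟨x, hx1, hx2⟩ := hne
  have fin : (C₁ ∪ C₂).Finite := M.ground_finite.subset (union_subset h1.subset_ground h2.subset_ground)
  obtain ⟨C₃, hC3s, hC3, he3⟩ := h1.strong_elimination h2 hx1 hx2 he he2
  obtain ⟨C₄, hC4s, hC4, hg4⟩ := h2.strong_elimination h1 hx2 hx1 hg hg1
  -- C₃ meets C₂ \ C₁
  have hx3 : x ∉ C₃ := fun h => (hC3s h).2 rfl
  have hx4 : x ∉ C₄ := fun h => (hC4s h).2 rfl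
  have hm3 : ∃ y ∈ C₃, y ∈ C₂ ∧ y ∉ C₁ := by
    by_contra hcon
    push Not at hcon
    have : C₃ ⊆ C₁ := by
      intro y hy
      rcases (hC3s hy).1 with h | h
      · exact h
      · exact hcon y hy h
    have := hC3.eq_of_subset_isCircuit h1 this
    exact hx3 (this ▸ hx1)
  have hm4 : ∃ y ∈ C₄, y ∈ C₁ ∧ y ∉ C₂ := by
    by_contra hcon
    push Not at hcon
    have : C₄ ⊆ C₂ := by
      intro y hy
      rcases (hC4s hy).1 with h | h
      · exact h
      · exact hcon y hy h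
    have := hC4.eq_of_subset_isCircuit h2 this
    exact hx4 (this ▸ hx2)
  obtain ⟨y3, hy3, hy32, hy31⟩ := hm3
  obtain ⟨y4, hy4, hy41, hy42⟩ := hm4
  by_cases hcase : C₁ ∪ C₂ ⊆ C₃ ∪ C₂
  · -- then C₃ contains C₁ \ C₂
    have hy43 : y4 ∈ C₃ := by
      rcases hcase (Or.inl hy41) with h | h
      · exact h
      · exact absurd h hy42
    refine ih _ ?_ hC3 hC4 he3 hg4 ⟨y4, hy43, hy4⟩ rfl
    apply ncard_lt_ncard _ fin
    refine ⟨?_, fun hh => ?_⟩
    · intro z hz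
      rcases hz with hz | hz
      · exact (hC3s hz).1
      · rcases (hC4s hz).1 with h | h
        · exact Or.inr h
        · exact Or.inl h
    · rcases hh (Or.inl hx1) with h | h
      · exact hx3 h
      · exact hx4 h
  · refine ih _ ?_ hC3 h2 he3 hg ⟨y3, hy3, hy32⟩ rfl
    apply ncard_lt_ncard _ fin
    refine ⟨?_, hcase⟩
    intro z hz
    rcases hz with hz | hz
    · exact (hC3s hz).1
    · exact Or.inr hz

lemma Conn.exists_circuit [M.Finite] (h : Conn M) {e f : α} (he : e ∈ M.E) (hf : f ∈ M.E)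
    (hef : e ≠ f) : ∃ C : Set α, M.IsCircuit C ∧ e ∈ C ∧ f ∈ C := by
  classical
  by_contra hcon
  set A : Set α := {x | x ∈ M.E ∧ (x = e ∨ ∃ C, M.IsCircuit C ∧ e ∈ C ∧ x ∈ C)} with hA
  have hAE : A ⊆ M.E := fun x hx => hx.1
  have heA : e ∈ A := ⟨he, Or.inl rfl⟩
  have hfA : f ∉ A := by
    rintro ⟨_, h1 | h1⟩
    · exact hef h1.symm
    · exact hcon h1
  have h1 := h A hAE ⟨e, heA⟩ ⟨f, hf, hfA⟩
  have h2 := rk_add_of_no_circuit M hAE (B := M.E \ A) sdiff_subset disjoint_sdiff_right (by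
    intro C hC _
    by_contra hcc
    push Not at hcc
    obtain ⟨hc1, hc2⟩ := hcc
    obtain ⟨a, haC, haA⟩ := Set.not_subset.1 hc1
    obtain ⟨b, hbC, hbB⟩ := Set.not_subset.1 hc2
    have hbA : b ∈ A := by
      by_contra hb
      exact hbB ⟨hC.subset_ground hbC, hb⟩
    apply haA
    refine ⟨hC.subset_ground haC, Or.inr ?_⟩
    rcases hbA.2 with rfl | ⟨C', hC', heC', hbC'⟩
    · exact ⟨C, hC, hbC, haC⟩
    · exact circuit_trans hC' hC heC' haC ⟨b, hbC', hbC⟩)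
  rw [union_sdiff_cancel hAE] at h2
  omega

/-- Tutte's lemma -/
lemma tutte [M.Finite] (h : Conn M) {e : α} (he : e ∈ M.E) (hnl : rk M {e} = 1)
    (hcol : rk M (M.E \ {e}) = rk M M.E) :
    Conn (M ＼ {e}) ∨ Conn (M ／ {e}) := by
  classical
  by_contra hcon
  push Not at hcon
  obtain ⟨h1, h2⟩ := hcon
  unfold Conn at h1 h2
  push Not at h1 h2
  obtain ⟨A, hA, hAne, hBne, hAB⟩ := h1
  obtain ⟨A', hA', hAne', hBne', hAB'⟩ := h2
  have hE : ({e} : Set α) ⊆ M.E := by simpa using he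
  have gE : (M ＼ {e}).E = M.E \ {e} := rfl
  have gE' : (M ／ {e}).E = M.E \ {e} := rfl
  rw [gE] at hA hBne hAB
  rw [gE'] at hA' hBne' hAB'
  rw [rk_delete M hA, rk_delete M (sdiff_subset), rk_delete M subset_rfl] at hAB
  have k1 := rk_contract M hE hA'
  have k2 := rk_contract M hE (Y := (M.E \ {e}) \ A') sdiff_subset
  have k3 := rk_contract M hE (Y := M.E \ {e}) subset_rfl
  rw [sdiff_union_of_subset hE] at k3
  set B := (M.E \ {e}) \ A with hB
  set B' := (M.E \ {e}) \ A' with hB'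
  -- key inequality
  have key : ∀ X Y X' Y' : Set α, X ∪ Y = M.E \ {e} → Disjoint X Y → X' ∪ Y' = M.E \ {e} →
      Disjoint X' Y' → rk M X + rk M Y ≤ rk M M.E →
      rk M (X' ∪ {e}) + rk M (Y' ∪ {e}) ≤ rk M M.E + 1 → X ∩ X' = ∅ ∨ Y ∩ Y' = ∅ := by
    intro X Y X' Y' hXY hd hXY' hd' hr hr'
    by_contra hc
    push Not at hc
    obtain ⟨hc1, hc2⟩ := hc
    have hXs : X ⊆ M.E \ {e} := hXY ▸ subset_union_left
    have hYs : Y ⊆ M.E \ {e} := hXY ▸ subset_union_right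
    have hXs' : X' ⊆ M.E \ {e} := hXY' ▸ subset_union_left
    have hYs' : Y' ⊆ M.E \ {e} := hXY' ▸ subset_union_right
    have mem1 : ∀ z, z ∈ M.E → z ≠ e → z ∈ X ∨ z ∈ Y := by
      intro z hz hze
      have : z ∈ X ∪ Y := by rw [hXY]; exact ⟨hz, hze⟩
      exact this
    have mem2 : ∀ z, z ∈ M.E → z ≠ e → z ∈ X' ∨ z ∈ Y' := by
      intro z hz hze
      have : z ∈ X' ∪ Y' := by rw [hXY']; exact ⟨hz, hze⟩
      exact this
    have s1 := rk_submod M X (X' ∪ {e})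
    have s2 := rk_submod M Y (Y' ∪ {e})
    have i1 : X ∩ X' ⊆ X ∩ (X' ∪ {e}) := fun z hz => ⟨hz.1, Or.inl hz.2⟩
    have i2 : Y ∩ Y' ⊆ Y ∩ (Y' ∪ {e}) := fun z hz => ⟨hz.1, Or.inl hz.2⟩
    have i3 : M.E \ (Y ∩ Y') ⊆ X ∪ (X' ∪ {e}) := by
      intro z hz
      by_cases hze : z = e
      · exact Or.inr (Or.inr hze)
      · rcases mem1 z hz.1 hze with h | h
        · exact Or.inl h
        · rcases mem2 z hz.1 hze with h' | h'
          · exact Or.inr (Or.inl h')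
          · exact absurd ⟨h, h'⟩ hz.2
    have i4 : M.E \ (X ∩ X') ⊆ Y ∪ (Y' ∪ {e}) := by
      intro z hz
      by_cases hze : z = e
      · exact Or.inr (Or.inr hze)
      · rcases mem1 z hz.1 hze with h | h
        · rcases mem2 z hz.1 hze with h' | h'
          · exact absurd ⟨h, h'⟩ hz.2
          · exact Or.inr (Or.inl h')
        · exact Or.inl h
    have m1 := rk_mono M i1
    have m2 := rk_mono M i2
    have m3 := rk_mono M i3
    have m4 := rk_mono M i4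
    have c1 := h (X ∩ X') (fun z hz => (hXs hz.1).1) hc1 ⟨e, he, fun hh => (hXs hh.1).2 rfl⟩
    have c2 := h (Y ∩ Y') (fun z hz => (hYs hz.1).1) hc2 ⟨e, he, fun hh => (hYs hh.1).2 rfl⟩
    omega
  have hUAB : A ∪ B = M.E \ {e} := union_sdiff_cancel hA
  have hUAB' : A' ∪ B' = M.E \ {e} := union_sdiff_cancel hA'
  have dAB : Disjoint A B := disjoint_sdiff_right
  have dAB' : Disjoint A' B' := disjoint_sdiff_right
  have r1 : rk M A + rk M B ≤ rk M M.E := by omega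
  have r2 : rk M (A' ∪ {e}) + rk M (B' ∪ {e}) ≤ rk M M.E + 1 := by omega
  have q1 := key A B A' B' hUAB dAB hUAB' dAB' r1 r2
  have q2 := key A B B' A' hUAB dAB (by rw [union_comm]; exact hUAB') dAB'.symm r1 (by omega)
  obtain ⟨a, ha⟩ := hAne
  obtain ⟨b, hb⟩ := hBne
  obtain ⟨a', ha'⟩ := hAne'
  obtain ⟨b', hb'⟩ := hBne'
  have in1 : ∀ z, z ∈ M.E \ {e} → z ∈ A ∨ z ∈ B := fun z hz => by rw [← mem_union, hUAB]; exact hz
  have in2 : ∀ z, z ∈ M.E \ {e} → z ∈ A' ∨ z ∈ B' := fun z hz => by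
    rw [← mem_union, hUAB']; exact hz
  have e1 : ∀ {S T : Set α} {z : α}, S ∩ T = ∅ → z ∈ S → z ∈ T → False := by
    intro S T z h hs ht
    have : z ∈ S ∩ T := ⟨hs, ht⟩
    rw [h] at this; exact this
  rcases q1 with q1 | q1 <;> rcases q2 with q2 | q2
  · rcases in2 a (hA ha) with h' | h'
    · exact e1 q1 ha h'
    · exact e1 q2 ha h'
  · rcases in1 a' (hA' ha') with h' | h'
    · exact e1 q1 h' ha'
    · exact e1 q2 h' ha'
  · rcases in1 b' hb'.1 with h' | h'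
    · exact e1 q2 h' hb'
    · exact e1 q1 h' hb'
  · rcases in2 b hb.1 with h' | h'
    · exact e1 q2 hb h'
    · exact e1 q1 hb h'

end H211.MC
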