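import Pool.Agent.H211R2.MC.Cov

set_option autoImplicit false

/-! Contracting an element of a largest circuit keeps a loopless connected matroid connected. -/

namespace H211.MC

open Set Matroid

variable {α : Type*} {M : Matroid α}

/-- a circuit through `l` which meets the closure of `l` only in `l` stays a circuit -/
lemma circuit_contract_closure {C : Set α} {l : α} (hC : M.IsCircuit C) (hl : l ∈ C)
    (hnt : C.Nontrivial) (hd : Disjoint (C \ {l}) (M.closure {l})) :
    (M ／ M.closure {l}).IsCircuit (C \ {l}) := by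
  rw [contract_closure_eq_contract_delete, delete_isCircuit_iff]
  exact ⟨hC.contractElem_isCircuit hnt hl, hd.mono_right sdiff_subset⟩

lemma join_indep [M.Finite] {X Y P : Set α} {l : α} (hP : P = M.closure {l}) (hl : l ∈ M.E)
    (hX : X.Finite) (hY : Y.Finite) (hXE : X ⊆ M.E) (hYE : Y ⊆ M.E) (hXY : Disjoint X Y)
    (hsk : rk M (X ∪ P) + rk M (Y ∪ P) ≤ rk M (X ∪ Y ∪ P) + rk M P) (hP1 : rk M P ≤ 1)
    (h : (rk M (X ∪ {l}) = X.ncard + 1 ∧ rk M (Y ∪ {l}) = Y.ncard ∧ l ∈ M.closure Y) ∨
      (rk M (Y ∪ {l}) = Y.ncard + 1 ∧ rk M (X ∪ {l}) = X.ncard ∧ l ∈ M.closure X)) :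
    M.Indep (X ∪ Y) := by
  subst hP
  rw [rk_union_closure_right, rk_union_closure_right, rk_union_closure_right] at hsk
  have hl2 : l ∈ M.closure (X ∪ Y) := by
    rcases h with h | h
    · exact M.closure_subset_closure subset_union_right h.2.2
    · exact M.closure_subset_closure subset_union_left h.2.2
  have e1 : rk M (X ∪ Y ∪ {l}) = rk M (X ∪ Y) := by
    rw [union_singleton]; exact rk_insert_of_mem M hl2
  rw [indep_iff_rk M (union_subset hXE hYE)]
  apply le_antisymm (rk_le_ncard M (hX.union hY))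
  rw [ncard_union_eq hXY hX hY]
  rcases h with ⟨h1, h2, _⟩ | ⟨h1, h2, _⟩ <;> omega

theorem contractible (hM : Good M) {C₀ : Set α} (hC0 : M.IsCircuit C₀) (h3 : 3 ≤ C₀.ncard)
    (hmax : ∀ C, M.IsCircuit C → C.ncard ≤ C₀.ncard) {l : α} (hl : l ∈ C₀) :
    Good (M ／ M.closure {l}) := by
  classical
  have := hM.fin
  have hfin : M.E.Finite := M.ground_finite
  have hlE : l ∈ M.E := hC0.subset_ground hl
  have hlE' : ({l} : Set α) ⊆ M.E := by simpa using hlE
  set P := M.closure {l} with hP
  have hPE : P ⊆ M.E := M.closure_subset_ground _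
  have hlP : l ∈ P := M.mem_closure_of_mem (mem_singleton l) hlE'
  have hPr : rk M P = 1 := by rw [hP, rk_closure, hM.ll l hlE]
  -- elements parallel to l
  have hpar : ∀ C, M.IsCircuit C → l ∈ C → ∀ x ∈ C, x ∈ P → x ≠ l → C = {l, x} := by
    intro C hC hlC x hxC hxP hxl
    have hdep : M.Dep {l, x} := by
      rw [← not_indep_iff (by
        intro z hz
        rcases hz with rfl | hz
        · exact hlE
        · rw [mem_singleton_iff.1 hz]; exact hC.subset_ground hxC)]
      intro hind
      have h1 := rk_indep M hind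
      rw [ncard_pair hxl.symm] at h1
      have h2 : rk M ({l, x} : Set α) ≤ rk M P := rk_mono M (by
        intro z hz
        rcases hz with rfl | hz
        · exact hlP
        · rw [mem_singleton_iff.1 hz]; exact hxP)
      omega
    exact (hC.eq_of_dep_subset hdep (by
      intro z hz
      rcases hz with rfl | hz
      · exact hlC
      · rw [mem_singleton_iff.1 hz]; exact hxC)).symm
  have hcirc : ∀ C, M.IsCircuit C → l ∈ C → (∃ b ∈ C, b ∉ P) →
      3 ≤ C.ncard ∧ (M ／ P).IsCircuit (C \ {l}) := by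
    rintro C hC hlC ⟨b, hbC, hbP⟩
    have hbl : b ≠ l := fun h => hbP (h ▸ hlP)
    have hnt : C.Nontrivial := ⟨b, hbC, l, hlC, hbl⟩
    have hdisj : Disjoint (C \ {l}) P := by
      rw [Set.disjoint_left]
      intro x hx hxP
      have := hpar C hC hlC x hx.1 hxP hx.2
      rw [this] at hbC
      rcases hbC with h | h
      · exact hbl h
      · rw [mem_singleton_iff.1 h] at hbP; exact hbP hxP
    refine ⟨?_, circuit_contract_closure hC hlC hnt hdisj⟩
    by_contra hlt
    have hCf : C.Finite := hfin.subset hC.subset_ground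
    have h2 : C.ncard ≤ 2 := by omega
    have hsub : ({l, b} : Set α) ⊆ C := by
      intro z hz
      rcases hz with rfl | hz
      · exact hlC
      · rw [mem_singleton_iff.1 hz]; exact hbC
    have heq : ({l, b} : Set α) = C := by
      apply Set.eq_of_subset_of_ncard_le hsub _ hCf
      rw [ncard_pair hbl.symm]; exact h2
    have hr := rk_circuit M hC
    rw [← heq, ncard_pair hbl.symm] at hr
    apply hbP
    rw [hP, mem_closure_iff_rk M (hC.subset_ground hbC)]
    rw [hM.ll l hlE]
    have : (insert b {l} : Set α) = {l, b} := by rw [pair_comm]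
    rw [this]; omega
  obtain ⟨b0, hb0, hb0l⟩ : ∃ b ∈ C₀, b ∉ P := by
    by_contra hcon
    push Not at hcon
    have : rk M C₀ ≤ rk M P := rk_mono M hcon
    have := rk_circuit M hC0
    omega
  have hC0' := (hcirc C₀ hC0 hl ⟨b0, hb0, hb0l⟩).2
  refine ⟨inferInstance, ⟨b0, hC0.subset_ground hb0, hb0l⟩, ?_, ?_⟩
  · intro e he
    have he' : e ∈ M.E \ P := he
    have h1 := rk_contract M hPE (Y := {e}) (by simpa using he')
    have h2 : rk M ({e} ∪ P) = rk M P + 1 := by
      rw [singleton_union]
      apply rk_insert_of_notMem M he'.1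
      rw [hP, closure_closure]; exact he'.2
    omega
  · intro A hA hAne hBne
    by_contra hcon
    push Not at hcon
    set B := (M ／ P).E \ A with hB
    have hAE : A ⊆ M.E \ P := hA
    have hBE : B ⊆ M.E \ P := sdiff_subset
    have hAB : A ∪ B = (M ／ P).E := union_sdiff_cancel hA
    have hdAB : Disjoint A B := disjoint_sdiff_right
    have hsk : rk (M ／ P) A + rk (M ／ P) B ≤ rk (M ／ P) (A ∪ B) := by rw [hAB]; exact hcon
    -- main claim, symmetric in A and B
    have main : ∀ A B : Set α, A ⊆ M.E \ P → B ⊆ M.E \ P → A ∪ B = (M ／ P).E → Disjoint A B →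
        B.Nonempty → rk (M ／ P) A + rk (M ／ P) B ≤ rk (M ／ P) (A ∪ B) → C₀ \ {l} ⊆ A → False := by
      intro A B hAE hBE hAB hdAB hBne hsk hCA
      obtain ⟨b, hb⟩ := hBne
      have hbE := hBE hb
      have hbl : l ≠ b := fun h => hbE.2 (h ▸ hlP)
      obtain ⟨Z, hZ, hlZ, hbZ⟩ := hM.conn.exists_circuit hlE hbE.1 hbl
      obtain ⟨hZ3, hZ'⟩ := hcirc Z hZ hlZ ⟨b, hbZ, hbE.2⟩
      have hZB : Z \ {l} ⊆ B := by
        rcases skew_circuit (M ／ P) hsk hZ' (by rw [hAB]; exact hZ'.subset_ground) with h | h
        · exact absurd (h ⟨hbZ, hbl.symm⟩) (fun h' => Set.disjoint_left.1 hdAB h' hb)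
        · exact h
      have hne : C₀ ≠ Z := by
        rintro rfl
        exact Set.disjoint_left.1 hdAB (hCA ⟨hbZ, hbl.symm⟩) hb
      obtain ⟨C₃, hC3s, hC3⟩ := hC0.elimination hZ hne l
      have f0 : C₀.Finite := hfin.subset hC0.subset_ground
      have fZ : Z.Finite := hfin.subset hZ.subset_ground
      have n0 : (C₀ \ {l}).ncard + 1 = C₀.ncard := ncard_sdiff_singleton_add_one hl f0
      have nZ : (Z \ {l}).ncard + 1 = Z.ncard := ncard_sdiff_singleton_add_one hlZ fZ
      have hC3mem : ∀ z ∈ C₃, (z ∈ C₀ ∧ z ≠ l) ∨ (z ∈ Z ∧ z ≠ l) := by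
        intro z hz
        have h1 := hC3s hz
        rcases h1.1 with h | h
        · exact Or.inl ⟨h, h1.2⟩
        · exact Or.inr ⟨h, h1.2⟩
      have rk0 := rk_circuit M hC0
      have rkZ := rk_circuit M hZ
      have cl0 : l ∈ M.closure (C₀ \ {l}) := hC0.mem_closure_sdiff_singleton_of_mem hl
      have clZ : l ∈ M.closure (Z \ {l}) := hZ.mem_closure_sdiff_singleton_of_mem hlZ
      have u0 : (C₀ \ {l}) ∪ {l} = C₀ := sdiff_union_of_subset (by simpa using hl)
      have uZ : (Z \ {l}) ∪ {l} = Z := sdiff_union_of_subset (by simpa using hlZ)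
      -- skewness over P
      have hskP : ∀ X Y, X ⊆ A → Y ⊆ B →
          rk M (X ∪ P) + rk M (Y ∪ P) ≤ rk M (X ∪ Y ∪ P) + rk M P := by
        intro X Y hX hY
        have h1 := skew_mono (M ／ P) hsk hX hY
        have k1 := rk_contract M hPE (Y := X) (hX.trans hAE)
        have k2 := rk_contract M hPE (Y := Y) (hY.trans hBE)
        have k3 := rk_contract M hPE (Y := X ∪ Y) (union_subset (hX.trans hAE) (hY.trans hBE))
        omega
      have full0 : ∀ a ∈ C₀, a ≠ l → a ∈ C₃ := by
        intro a ha hal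
        by_contra haC3
        have hXs : (C₀ \ {l}) \ {a} ⊆ A := sdiff_subset.trans hCA
        have nX : ((C₀ \ {l}) \ {a}).ncard + 1 = (C₀ \ {l}).ncard :=
          ncard_sdiff_singleton_add_one ⟨ha, hal⟩ f0.sdiff
        have uX : ((C₀ \ {l}) \ {a}) ∪ {l} = C₀ \ {a} := by
          ext z
          simp only [mem_union, mem_sdiff, mem_singleton_iff]
          constructor
          · rintro (h | h)
            · exact ⟨h.1.1, h.2⟩
            · rw [h]; exact ⟨hl, fun h' => hal h'.symm⟩
          · intro h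
            by_cases hz : z = l
            · exact Or.inr hz
            · exact Or.inl ⟨⟨h.1, hz⟩, h.2⟩
        have nXa : (C₀ \ {a}).ncard + 1 = C₀.ncard := ncard_sdiff_singleton_add_one ha f0
        have hind := join_indep (M := M) (X := (C₀ \ {l}) \ {a}) (Y := Z \ {l}) (P := P) rfl hlE
          f0.sdiff.sdiff fZ.sdiff (hXs.trans (hAE.trans sdiff_subset))
          (hZB.trans (hBE.trans sdiff_subset)) (hdAB.mono hXs hZB) (hskP _ _ hXs hZB) hPr.le
          (Or.inl ⟨by
            rw [uX, rk_indep M (hC0.sdiff_singleton_indep ha)]; omega, by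
            rw [uZ]; omega, clZ⟩)
        apply hC3.not_indep
        apply hind.subset
        intro z hz
        rcases hC3mem z hz with h | h
        · exact Or.inl ⟨⟨h.1, h.2⟩, fun h' => haC3 (by rw [← mem_singleton_iff.1 h']; exact hz)⟩
        · exact Or.inr ⟨h.1, h.2⟩
      have fullZ : ∀ a ∈ Z, a ≠ l → a ∈ C₃ := by
        intro a ha hal
        by_contra haC3
        have hYs : (Z \ {l}) \ {a} ⊆ B := sdiff_subset.trans hZB
        have nX : ((Z \ {l}) \ {a}).ncard + 1 = (Z \ {l}).ncard :=
          ncard_sdiff_singleton_add_one ⟨ha, hal⟩ fZ.sdiff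
        have uX : ((Z \ {l}) \ {a}) ∪ {l} = Z \ {a} := by
          ext z
          simp only [mem_union, mem_sdiff, mem_singleton_iff]
          constructor
          · rintro (h | h)
            · exact ⟨h.1.1, h.2⟩
            · rw [h]; exact ⟨hlZ, fun h' => hal h'.symm⟩
          · intro h
            by_cases hz : z = l
            · exact Or.inr hz
            · exact Or.inl ⟨⟨h.1, hz⟩, h.2⟩
        have nXa : (Z \ {a}).ncard + 1 = Z.ncard := ncard_sdiff_singleton_add_one ha fZ
        have hind := join_indep (M := M) (X := C₀ \ {l}) (Y := (Z \ {l}) \ {a}) (P := P) rfl hlE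
          f0.sdiff fZ.sdiff.sdiff (hCA.trans (hAE.trans sdiff_subset))
          (hYs.trans (hBE.trans sdiff_subset)) (hdAB.mono hCA hYs) (hskP _ _ hCA hYs) hPr.le
          (Or.inr ⟨by
            rw [uX, rk_indep M (hZ.sdiff_singleton_indep ha)]; omega, by
            rw [u0]; omega, cl0⟩)
        apply hC3.not_indep
        apply hind.subset
        intro z hz
        rcases hC3mem z hz with h | h
        · exact Or.inl ⟨h.1, h.2⟩
        · exact Or.inr ⟨⟨h.1, h.2⟩, fun h' => haC3 (by rw [← mem_singleton_iff.1 h']; exact hz)⟩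
      have hsub : (C₀ \ {l}) ∪ (Z \ {l}) ⊆ C₃ := by
        intro z hz
        rcases hz with h | h
        · exact full0 z h.1 h.2
        · exact fullZ z h.1 h.2
      have hcard := ncard_le_ncard hsub (hfin.subset hC3.subset_ground)
      rw [ncard_union_eq (hdAB.mono hCA hZB) f0.sdiff fZ.sdiff] at hcard
      have := hmax C₃ hC3
      omega
    rcases skew_circuit (M ／ P) hsk hC0' (by rw [hAB]; exact hC0'.subset_ground) with h | h
    · exact main A B hAE hBE hAB hdAB hBne hsk h
    · exact main B A hBE hAE (by rw [union_comm]; exact hAB) hdAB.symm hAne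
        (by rw [union_comm B A]; omega) h

end H211.MC
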