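import Pool.Agent.H211R2.MC.Conn

set_option autoImplicit false

/-! Weights, covers by cocircuits, covers by cocircuits through one element (Lemos). -/

namespace H211.MC

open Set Matroid

variable {α : Type*} {M : Matroid α}

/-- total weight of a set -/
noncomputable def W (w : α → ℕ) (C : Set α) : ℕ := ∑ᶠ e ∈ C, w e

lemma W_eq (w : α → ℕ) {C : Set α} (hC : C.Finite) : W w C = ∑ x ∈ hC.toFinset, w x := by
  unfold W
  exact finsum_mem_eq_finite_toFinset_sum w hC

lemma W_mono (w : α → ℕ) {X Y : Set α} (hY : Y.Finite) (h : X ⊆ Y) : W w X ≤ W w Y := by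
  rw [W_eq w hY, W_eq w (hY.subset h)]
  apply Finset.sum_le_sum_of_subset
  intro z hz
  simp only [Set.Finite.mem_toFinset] at hz ⊢
  exact h hz

lemma le_W (w : α → ℕ) {X : Set α} (hX : X.Finite) {x : α} (hx : x ∈ X) : w x ≤ W w X := by
  rw [W_eq w hX]
  exact Finset.single_le_sum (f := w) (fun _ _ => Nat.zero_le _) (by simpa using hx)

lemma W_union (w : α → ℕ) {X Y : Set α} (hX : X.Finite) (hY : Y.Finite) (h : Disjoint X Y) :
    W w (X ∪ Y) = W w X + W w Y := by
  unfold W
  exact finsum_mem_union h hX hY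

lemma W_union_le (w : α → ℕ) {X Y : Set α} (hX : X.Finite) (hY : Y.Finite) :
    W w (X ∪ Y) ≤ W w X + W w Y := by
  classical
  rw [W_eq w (hX.union hY), W_eq w hX, W_eq w hY]
  have : (hX.union hY).toFinset = hX.toFinset ∪ hY.toFinset := by
    ext z; simp
  rw [this]
  have := Finset.sum_union_inter (s₁ := hX.toFinset) (s₂ := hY.toFinset) (f := w)
  omega

open Classical in
/-- weight lowered by one on a set -/
noncomputable def low (w : α → ℕ) (D : Set α) (e : α) : ℕ := w e - (if e ∈ D then 1 else 0)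

lemma low_le (w : α → ℕ) (D : Set α) (e : α) : low w D e ≤ w e := by
  unfold low; omega

lemma low_of_mem (w : α → ℕ) {D : Set α} {e : α} (he : e ∈ D) : low w D e = w e - 1 := by
  unfold low; rw [if_pos he]

lemma low_of_notMem (w : α → ℕ) {D : Set α} {e : α} (he : e ∉ D) : low w D e = w e := by
  unfold low; rw [if_neg he]; rfl

lemma W_low_one (w : α → ℕ) {D C : Set α} (hC : C.Finite) {x : α} (hx : x ∈ C) (hxD : x ∈ D)
    (h1 : 1 ≤ w x) : W (low w D) C + 1 ≤ W w C := by
  rw [W_eq _ hC, W_eq _ hC]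
  have : ∑ z ∈ hC.toFinset, low w D z < ∑ z ∈ hC.toFinset, w z := by
    apply Finset.sum_lt_sum
    · intro z _; exact low_le w D z
    · refine ⟨x, by simpa using hx, ?_⟩
      rw [low_of_mem w hxD]; omega
  omega

lemma W_low_two (w : α → ℕ) {D C : Set α} (hC : C.Finite) {x y : α} (hx : x ∈ C) (hxD : x ∈ D)
    (h1 : 1 ≤ w x) (hy : y ∈ C) (hyD : y ∈ D) (h2 : 1 ≤ w y) (hxy : x ≠ y) :
    W (low w D) C + 2 ≤ W w C := by
  have e1 : C = {x} ∪ (C \ {x}) := (union_sdiff_cancel (by simpa using hx)).symm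
  have hf : (C \ {x}).Finite := hC.sdiff
  have d : Disjoint ({x} : Set α) (C \ {x}) := disjoint_sdiff_right
  have a1 : W (low w D) C = W (low w D) {x} + W (low w D) (C \ {x}) := by
    conv_lhs => rw [e1]
    exact W_union _ (finite_singleton x) hf d
  have a2 : W w C = W w {x} + W w (C \ {x}) := by
    conv_lhs => rw [e1]
    exact W_union _ (finite_singleton x) hf d
  have a3 := W_low_one w (D := D) (C := {x}) (finite_singleton x) rfl hxD h1
  have a4 := W_low_one w (D := D) hf (x := y) ⟨hy, fun h => hxy h.symm⟩ hyD h2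
  omega

/-- number of members containing `e` -/
noncomputable def cnt {k : ℕ} (D : Fin k → Set α) (e : α) : ℕ := {i | e ∈ D i}.ncard

lemma cnt_mono {k : ℕ} {D D' : Fin k → Set α} (h : ∀ i, D i ⊆ D' i) (e : α) :
    cnt D e ≤ cnt D' e := by
  unfold cnt
  apply ncard_le_ncard (fun i hi => h i hi) (toFinite _)

lemma cnt_cons {k : ℕ} (D0 : Set α) (D : Fin k → Set α) (e : α) :
    cnt (Fin.cons D0 D : Fin (k + 1) → Set α) e = cnt D e + (by classical exact if e ∈ D0 then 1 else 0) := by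
  classical
  unfold cnt
  have h1 : {i : Fin (k+1) | e ∈ (Fin.cons D0 D : Fin (k + 1) → Set α) i}.ncard =
      (Finset.univ.filter (fun i : Fin (k+1) => e ∈ (Fin.cons D0 D : Fin (k + 1) → Set α) i)).card := by
    rw [← Set.ncard_coe_finset]; congr 1; ext i; simp
  have h2 : {i : Fin k | e ∈ D i}.ncard = (Finset.univ.filter (fun i : Fin k => e ∈ D i)).card := by
    rw [← Set.ncard_coe_finset]; congr 1; ext i; simp
  rw [h1, h2, Fin.card_filter_univ_succ]
  simp only [Fin.cons_zero, Fin.cons_succ]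
  split_ifs <;> simp

lemma cnt_const {k : ℕ} (D0 : Set α) {e : α} (he : e ∈ D0) : cnt (fun _ : Fin k => D0) e = k := by
  unfold cnt
  have : {i : Fin k | e ∈ D0} = univ := by ext i; simp [he]
  rw [this, ncard_univ]; simp

/-- nonempty finite loopless connected matroids -/
structure Good (M : Matroid α) : Prop where
  fin : M.Finite
  ne : M.E.Nonempty
  ll : ∀ e ∈ M.E, rk M {e} = 1
  conn : Conn M

lemma Good.coloop (h : Good M) {e : α} (he : e ∈ M.E) (h2 : 2 ≤ M.E.ncard) :
    rk M (M.E \ {e}) = rk M M.E := by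
  haveI := h.fin
  have hne : (M.E \ {e}).Nonempty := by
    rw [nonempty_iff_ne_empty]
    intro h0
    have : M.E ⊆ {e} := sdiff_eq_empty.1 h0
    have := ncard_le_ncard this (finite_singleton e)
    rw [ncard_singleton] at this; omega
  have h1 := h.conn {e} (by simpa using he) (singleton_nonempty e) hne
  rw [h.ll e he] at h1
  have := rk_le_ground M (M.E \ {e})
  omega

lemma Good.minor (h : Good M) {e : α} (he : e ∈ M.E) (h2 : 2 ≤ M.E.ncard) :
    Good (M ＼ {e}) ∨ Good (M ／ {e}) := by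
  haveI := h.fin
  have hfin : M.E.Finite := M.ground_finite
  have hE : ({e} : Set α) ⊆ M.E := by simpa using he
  have hne : (M.E \ {e}).Nonempty := by
    rw [nonempty_iff_ne_empty]
    intro h0
    have : M.E ⊆ {e} := sdiff_eq_empty.1 h0
    have := ncard_le_ncard this (finite_singleton e)
    rw [ncard_singleton] at this; omega
  have hcard : (M.E \ {e}).ncard + 1 = M.E.ncard := ncard_sdiff_singleton_add_one he hfin
  have hdel : Conn (M ＼ {e}) → Good (M ＼ {e}) := fun hc =>
    ⟨inferInstance, hne, fun f hf => by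
      rw [rk_delete M (by simpa using hf)]; exact h.ll f hf.1, hc⟩
  by_cases hc2 : M.E.ncard = 2
  · left
    apply hdel
    intro A hA hAne hBne
    exfalso
    obtain ⟨a, ha⟩ := hAne
    obtain ⟨b, hb⟩ := hBne
    have hA' : A ⊆ M.E \ {e} := hA
    have h3 : ({a, b} : Set α) ⊆ M.E \ {e} := by
      intro z hz
      rcases hz with rfl | hz
      · exact hA' ha
      · rw [mem_singleton_iff.1 hz]; exact hb.1
    have h4 := ncard_le_ncard h3 hfin.sdiff
    rw [ncard_pair (fun hab : a = b => hb.2 (hab ▸ ha))] at h4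
    omega
  rcases tutte h.conn he (h.ll e he) (h.coloop he h2) with hc | hc
  · exact Or.inl (hdel hc)
  · right
    refine ⟨inferInstance, hne, fun f hf => ?_, hc⟩
    have hf' : f ∈ M.E \ {e} := hf
    have hne2 : ((M.E \ {e}) \ {f}).Nonempty := by
      rw [nonempty_iff_ne_empty]
      intro h0
      have : M.E \ {e} ⊆ {f} := sdiff_eq_empty.1 h0
      have := ncard_le_ncard this (finite_singleton f)
      rw [ncard_singleton] at this; omega
    have h3 := hc {f} (by simpa using hf) (singleton_nonempty f) hne2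
    have h4 := rk_le_ground (M ／ {e}) ((M ／ {e}).E \ {f})
    have h5 := rk_le_ncard (M ／ {e}) (I := {f}) (finite_singleton f)
    rw [ncard_singleton] at h5
    omega

lemma Good.exists_cocircuit (h : Good M) {e : α} (he : e ∈ M.E) :
    ∃ D, M.IsCocircuit D ∧ e ∈ D := by
  haveI := h.fin
  have hind : M.Indep {e} := by
    rw [indep_iff_rk M (by simpa using he), h.ll e he, ncard_singleton]
  obtain ⟨B, hB, heB⟩ := hind.exists_isBase_superset
  exact ⟨M.fundCocircuit e B, fundCocircuit_isCocircuit (heB rfl) hB, M.mem_fundCocircuit e B⟩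

lemma cocircuit_lift_delete {e : α} {K : Set α} (hK : (M ＼ {e}).IsCocircuit K) :
    ∃ K', M.IsCocircuit K' ∧ K ⊆ K' := by
  rw [isCocircuit_def, dual_delete] at hK
  obtain ⟨C', hC', h1, _⟩ := hK.exists_subset_isCircuit_of_contract
  exact ⟨C', hC', h1⟩

lemma circuit_lift_contract {e : α} {C : Set α} (hC : (M ／ {e}).IsCircuit C) :
    ∃ C', M.IsCircuit C' ∧ C ⊆ C' ∧ C' ⊆ C ∪ {e} :=
  hC.exists_subset_isCircuit_of_contract

/-- weighted version of the theorem of Lemos -/
theorem lemos (n : ℕ) : ∀ (M : Matroid α), Good M → ∀ (e : α), e ∈ M.E → ∀ (w : α → ℕ) (k : ℕ),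
    M.E.ncard + W w M.E = n →
    (∀ C, M.IsCircuit C → e ∈ C → W w (C \ {e}) ≤ k) →
    ∃ D : Fin k → Set α, (∀ i, M.IsCocircuit (D i) ∧ e ∈ D i) ∧
      ∀ f ∈ M.E, f ≠ e → w f ≤ cnt D f := by
  classical
  induction n using Nat.strong_induction_on with
  | _ n ih =>
  intro M hM e he w k hn hk
  haveI := hM.fin
  have hfin : M.E.Finite := M.ground_finite
  by_cases h1 : M.E ⊆ {e}
  · obtain ⟨D, hD, heD⟩ := hM.exists_cocircuit he
    exact ⟨fun _ => D, fun _ => ⟨hD, heD⟩, fun f hf hfe => absurd (h1 hf) hfe⟩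
  obtain ⟨f0, hf0, hf0e⟩ := Set.not_subset.1 h1
  have hf0e' : f0 ≠ e := hf0e
  have h2 : 2 ≤ M.E.ncard := by
    have : ({e, f0} : Set α) ⊆ M.E := by
      intro z hz
      rcases hz with rfl | hz
      · exact he
      · rw [mem_singleton_iff.1 hz]; exact hf0
    have := ncard_le_ncard this hfin
    rwa [ncard_pair hf0e'.symm] at this
  by_cases hz : ∃ f ∈ M.E, f ≠ e ∧ w f = 0
  · obtain ⟨f, hf, hfe, hwf⟩ := hz
    have hcard : (M.E \ {f}).ncard + 1 = M.E.ncard := ncard_sdiff_singleton_add_one hf hfin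
    have hW := W_mono w hfin (sdiff_subset : M.E \ {f} ⊆ M.E)
    rcases hM.minor hf h2 with hG | hG
    · have := ih ((M.E \ {f}).ncard + W w (M.E \ {f})) (by omega) (M ＼ {f}) hG e
        ⟨he, fun h => hfe h.symm⟩ w k rfl (fun C hC heC => hk C hC.of_delete heC)
      obtain ⟨D, hD, hcov⟩ := this
      choose K hK using fun i => cocircuit_lift_delete (hD i).1
      refine ⟨K, fun i => ⟨(hK i).1, (hK i).2 (hD i).2⟩, fun g hg hge => ?_⟩
      by_cases hgf : g = f
      · rw [hgf, hwf]; exact Nat.zero_le _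
      · exact (hcov g ⟨hg, hgf⟩ hge).trans (cnt_mono (fun i => (hK i).2) g)
    · have := ih ((M.E \ {f}).ncard + W w (M.E \ {f})) (by omega) (M ／ {f}) hG e
        ⟨he, fun h => hfe h.symm⟩ w k rfl (by
          intro C hC heC
          obtain ⟨C', hC', hCC', _⟩ := circuit_lift_contract hC
          exact (W_mono w (hfin.subset (sdiff_subset.trans hC'.subset_ground))
            (sdiff_subset_sdiff_left hCC')).trans (hk C' hC' (hCC' heC)))
      obtain ⟨D, hD, hcov⟩ := this
      refine ⟨D, fun i => ⟨(hD i).1.of_contract, (hD i).2⟩, fun g hg hge => ?_⟩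
      by_cases hgf : g = f
      · rw [hgf, hwf]; exact Nat.zero_le _
      · exact hcov g ⟨hg, hgf⟩ hge
  push Not at hz
  obtain ⟨C0, hC0, heC0, hfC0⟩ := hM.conn.exists_circuit he hf0 hf0e'.symm
  have hk1 : 1 ≤ k := by
    have a1 := hk C0 hC0 heC0
    have a2 := le_W w ((hfin.subset hC0.subset_ground).sdiff (t := {e})) (x := f0) ⟨hfC0, hf0e'⟩
    have a3 := hz f0 hf0 hf0e'
    omega
  obtain ⟨k', rfl⟩ : ∃ k', k = k' + 1 := ⟨k - 1, by omega⟩
  obtain ⟨D0, hD0, heD0⟩ := hM.exists_cocircuit he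
  have hsecond : ∀ C, M.IsCircuit C → e ∈ C → ∃ g ∈ C, g ≠ e ∧ g ∈ D0 := by
    intro C hC heC
    have hnt := hC.isCocircuit_inter_nontrivial hD0 ⟨e, heC, heD0⟩
    obtain ⟨g, hg, hge⟩ := hnt.exists_ne e
    exact ⟨g, hg.1, hge, hg.2⟩
  obtain ⟨g0, hg0C, hg0e, hg0D⟩ := hsecond C0 hC0 heC0
  have hg0E := hC0.subset_ground hg0C
  have hlt := W_low_one w (D := D0) hfin hg0E hg0D (Nat.one_le_iff_ne_zero.2 (hz g0 hg0E hg0e))
  obtain ⟨D, hD, hcov⟩ := ih (M.E.ncard + W (low w D0) M.E) (by omega) M hM e he (low w D0) k' rfl (by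
    intro C hC heC
    obtain ⟨g, hgC, hge, hgD⟩ := hsecond C hC heC
    have b1 := W_low_one w (D := D0) ((hfin.subset hC.subset_ground).sdiff (t := {e}))
      (x := g) ⟨hgC, hge⟩ hgD (Nat.one_le_iff_ne_zero.2 (hz g (hC.subset_ground hgC) hge))
    have b2 := hk C hC heC
    omega)
  refine ⟨Fin.cons D0 D, ?_, ?_⟩
  · intro i
    refine Fin.cases ?_ (fun j => ?_) i
    · exact ⟨hD0, heD0⟩
    · exact hD j
  · intro f hf hfe
    have c1 := hcov f hf hfe
    rw [cnt_cons]
    by_cases hfD : f ∈ D0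
    · rw [low_of_mem w hfD] at c1
      rw [if_pos hfD]; omega
    · rw [low_of_notMem w hfD] at c1
      rw [if_neg hfD]; omega

end H211.MC
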