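import Pool.Agent.H211R2.MC.Contr

set_option autoImplicit false

/-! Exposed points of a connected hyperplane, or a seven point configuration. -/

namespace H211.MC

open Set Matroid

variable {α : Type*}

/-- Seven elements `p, a₁, a₂, a₃, b₁, b₂, b₃` of rank three: `a₁, a₂, a₃` are collinear, `p` is
not on their line, and `b_i` is a third point on the line through `p` and `a_i`. -/
def SevenPoint (N : Matroid α) : Prop :=
  ∃ p a₁ a₂ a₃ b₁ b₂ b₃ : α, a₁ ≠ a₂ ∧ a₁ ≠ a₃ ∧ a₂ ≠ a₃ ∧
    N.IsCircuit {a₁, a₂, a₃} ∧ p ∉ N.closure {a₁, a₂, a₃} ∧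
    N.IsCircuit {p, a₁, b₁} ∧ N.IsCircuit {p, a₂, b₂} ∧ N.IsCircuit {p, a₃, b₃}

lemma mem_of_hyper {N : Matroid α} {K X : Set α} {p a : α} (hX : X ⊆ K) (hK : N.closure K = K)
    (hp : p ∈ N.E) (hpK : p ∉ K) (haK : a ∈ K) (ha : a ∈ N.closure (insert p X)) :
    a ∈ N.closure X := by
  by_contra hcon
  have h1 := N.closure_exchange (X := X) (e := a) (f := p) ⟨ha, hcon⟩
  have h2 : N.closure (insert a X) ⊆ K := by
    rw [← hK]
    apply N.closure_subset_closure
    exact insert_subset haK hX
  exact hpK (h2 h1.1)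

/-- large circuits in matroids of rank at least two -/
lemma exists_large_circuit {M : Matroid α} (hM : Good M) (h2 : 2 ≤ rk M M.E) :
    ∃ C₀, M.IsCircuit C₀ ∧ 3 ≤ C₀.ncard ∧ ∀ C, M.IsCircuit C → C.ncard ≤ C₀.ncard := by
  classical
  have := hM.fin
  have hfin : M.E.Finite := M.ground_finite
  obtain ⟨e, he⟩ := hM.ne
  obtain ⟨f, hf, hfe⟩ : ∃ f ∈ M.E, f ∉ M.closure {e} := by
    by_contra hcon
    push Not at hcon
    have := rk_mono M (X := M.E) (Y := M.closure {e}) hcon
    rw [rk_closure, hM.ll e he] at this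
    omega
  have hef : e ≠ f := by
    rintro rfl
    exact hfe (M.mem_closure_of_mem (mem_singleton e) (by simpa using he))
  obtain ⟨C, hC, heC, hfC⟩ := hM.conn.exists_circuit he hf hef
  have hC3 : 3 ≤ C.ncard := by
    by_contra hlt
    have hCf : C.Finite := hfin.subset hC.subset_ground
    have hsub : ({e, f} : Set α) ⊆ C := by
      intro z hz
      rcases hz with rfl | hz
      · exact heC
      · rw [mem_singleton_iff.1 hz]; exact hfC
    have heq : ({e, f} : Set α) = C := by
      apply Set.eq_of_subset_of_ncard_le hsub _ hCf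
      rw [ncard_pair hef]; omega
    have hr := rk_circuit M hC
    rw [← heq, ncard_pair hef] at hr
    apply hfe
    rw [mem_closure_iff_rk M hf, hM.ll e he]
    have : (insert f {e} : Set α) = {e, f} := by rw [pair_comm]
    rw [this]; omega
  have hS : {C | M.IsCircuit C}.Finite := hfin.finite_subsets.subset (fun C hC => hC.subset_ground)
  obtain ⟨C₀, hC0, hmax⟩ := hS.exists_maximalFor (fun C => C.ncard) _ ⟨C, hC⟩
  refine ⟨C₀, hC0, ?_, ?_⟩
  · rcases le_total C.ncard C₀.ncard with h | h
    · omega
    · have := hmax (j := C) hC h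
      simp only at this
      omega
  · intro C' hC'
    rcases le_total C'.ncard C₀.ncard with h | h
    · exact h
    · exact hmax (j := C') hC' h

/-- exposed point lemma -/
theorem exposed (N : Matroid α) (hfin : N.Finite) (hll : ∀ e ∈ N.E, rk N {e} = 1)
    (hno : ∀ X ⊆ N.E, ¬ SevenPoint (N ／ X)) {K : Set α} (hKE : K ⊆ N.E) 
    (hKcl : N.closure K = K) (hKG : Good (N ↾ K)) {p : α} (hpE : p ∈ N.E) (hpK : p ∉ K) :
    ∃ L ⊆ K, N.closure L = L ∧ rk N L + 1 = rk N K ∧
      N.closure (insert p L) \ K ⊆ N.closure {p} := by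
  classical
  have := hfin
  -- candidates
  set P : Set α → Prop := fun L => L ⊆ K ∧ N.closure L = L ∧ rk N L < rk N K ∧
    Good ((N ↾ K) ／ L) ∧ N.closure (insert p L) \ K ⊆ N.closure {p} with hP
  have hclos0 : N.closure ∅ = ∅ := by
    rw [eq_empty_iff_forall_notMem]
    intro x hx
    have hxE : x ∈ N.E := N.closure_subset_ground _ hx
    have h1 := rk_mono N (X := {x}) (Y := N.closure ∅) (by simpa using hx)
    rw [rk_closure, rk_empty, hll x hxE] at h1
    omega
  have hbase : P ∅ := by
    refine ⟨empty_subset _, hclos0, ?_, ?_, ?_⟩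
    · rw [rk_empty]
      obtain ⟨x, hx⟩ := hKG.ne
      have hxK : x ∈ K := hx
      have h1 := rk_mono N (X := {x}) (Y := K) (by simpa using hxK)
      rw [hll x (hKE hxK)] at h1
      omega
    · rw [contract_empty]; exact hKG
    · rw [insert_empty_eq]; exact sdiff_subset
  have hS : {L | P L}.Finite := (N.ground_finite.subset hKE).finite_subsets.subset (fun L hL => hL.1)
  obtain ⟨L, hL, hmax⟩ := hS.exists_maximalFor (fun L => rk N L) _ ⟨∅, hbase⟩
  have hmax' : ∀ L', P L' → rk N L' ≤ rk N L := by
    intro L' hL'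
    rcases le_total (rk N L') (rk N L) with h | h
    · exact h
    · exact hmax (j := L') hL' h
  obtain ⟨hLK, hLcl, hLr, hLG, hLe⟩ := hL
  refine ⟨L, hLK, hLcl, ?_, hLe⟩
  by_contra hne
  have hr2 : rk N L + 2 ≤ rk N K := by omega
  exfalso
  set K' := (N ↾ K) ／ L with hK'
  have hLE : L ⊆ N.E := hLK.trans hKE
  have fK : (N ↾ K).Finite := hKG.fin
  have gK' : K'.E = K \ L := rfl
  -- rank of K'
  have hrk' : 2 ≤ rk K' K'.E := by
    have h1 := rk_contract (N ↾ K) (X := L) (by simpa using hLK) (Y := K \ L) (by simp)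
    rw [rk_restrict N hLK, sdiff_union_of_subset hLK, rk_restrict N subset_rfl] at h1
    change 2 ≤ rk ((N ↾ K) ／ L) (K \ L)
    omega
  obtain ⟨C₀, hC0, hC03, hC0max⟩ := exists_large_circuit hLG hrk'
  have hC0K : C₀ ⊆ K \ L := hC0.subset_ground
  -- C₀ is a circuit of N ／ L
  have hC0N : (N ／ L).IsCircuit C₀ := by
    have h1 := hC0
    rw [hK', restrict_contract_eq_contract_restrict _ hLK] at h1
    exact ((restrict_isCircuit_iff (by
      intro z hz
      exact ⟨hKE hz.1, hz.2⟩)).1 h1).1
  -- failing exposures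
  have hq : ∀ l ∈ C₀, ∃ q, q ∈ N.closure (insert p (insert l L)) ∧ q ∉ K ∧
      q ∉ N.closure (insert p L) := by
    intro l hl
    have hlK : l ∈ K := (hC0K hl).1
    have hlL : l ∉ L := (hC0K hl).2
    have hlE := hKE hlK
    set Ll := N.closure (insert l L) with hLl
    have hLlK : Ll ⊆ K := by
      rw [hLl, ← hKcl]
      exact N.closure_subset_closure (insert_subset hlK hLK)
    have hLLl : L ⊆ Ll := (subset_insert l L).trans (N.subset_closure _ (insert_subset hlE hLE))
    have hgood : Good ((N ↾ K) ／ Ll) := by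
      have h1 := contractible hLG hC0 hC03 hC0max hl
      have h2 : K'.closure {l} = Ll \ L := by
        rw [hK', contract_closure_eq, restrict_closure_eq N (by
          intro z hz
          rcases hz with hz | hz
          · rw [mem_singleton_iff.1 hz]; exact hlK
          · exact hLK hz) (hKE)]
        rw [singleton_union, ← hLl, inter_eq_self_of_subset_left hLlK]
      rw [h2, hK', contract_contract, union_sdiff_cancel hLLl] at h1
      exact h1
    have hLlr : rk N Ll = rk N L + 1 := by
      rw [hLl, rk_closure]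
      exact rk_insert_of_notMem N hlE (by rw [hLcl]; exact hlL)
    have hfail : ¬ (N.closure (insert p Ll) \ K ⊆ N.closure {p}) := by
      intro hh
      have := hmax' Ll ⟨hLlK, by rw [hLl, Matroid.closure_closure], by omega, hgood, hh⟩
      omega
    obtain ⟨q, hq1, hq2⟩ := Set.not_subset.1 hfail
    refine ⟨q, ?_, hq1.2, fun h => hq2 (hLe ⟨h, hq1.2⟩)⟩
    have : N.closure (insert p Ll) = N.closure (insert p (insert l L)) := by
      rw [hLl, N.closure_insert_closure_eq_closure_insert]
    rw [← this]; exact hq1.1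
  -- three elements
  obtain ⟨a₁, a₂, a₃, ha₁, ha₂, ha₃, h12, h13, h23⟩ : ∃ a₁ a₂ a₃, a₁ ∈ C₀ ∧ a₂ ∈ C₀ ∧ a₃ ∈ C₀ ∧
      a₁ ≠ a₂ ∧ a₁ ≠ a₃ ∧ a₂ ≠ a₃ := by
    have := (two_lt_ncard_iff (N.ground_finite.subset (hC0K.trans (sdiff_subset.trans hKE)))).1
      (by omega : 2 < C₀.ncard)
    obtain ⟨a, b, c, ha, hb, hc, hab, hac, hbc⟩ := this
    exact ⟨a, b, c, ha, hb, hc, hab, hac, hbc⟩
  obtain ⟨b₁, hb₁⟩ := hq a₁ ha₁
  obtain ⟨b₂, hb₂⟩ := hq a₂ ha₂
  obtain ⟨b₃, hb₃⟩ := hq a₃ ha₃
  set T : Set α := C₀ \ {a₁, a₂, a₃} with hT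
  have hTK : T ⊆ K := sdiff_subset.trans (hC0K.trans sdiff_subset)
  have hXK : L ∪ T ⊆ K := union_subset hLK hTK
  have hXE : L ∪ T ⊆ N.E := hXK.trans hKE
  have hclX : N.closure (L ∪ T) ⊆ K := by
    rw [← hKcl]; exact N.closure_subset_closure hXK
  have htri : (N ／ (L ∪ T)).IsCircuit {a₁, a₂, a₃} := by
    have := hC0N.contract_sdiff_isCircuit (K := {a₁, a₂, a₃}) (insert_nonempty _ _) (by
      intro z hz
      rcases hz with rfl | rfl | hz
      · exact ha₁
      · exact ha₂
      · rw [mem_singleton_iff.1 hz]; exact ha₃)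
    rwa [contract_contract] at this
  have hpcl : p ∉ (N ／ (L ∪ T)).closure {a₁, a₂, a₃} := by
    rw [contract_closure_eq]
    rintro ⟨h, _⟩
    apply hpK
    rw [← hKcl]
    refine N.closure_subset_closure ?_ h
    apply union_subset _ hXK
    intro z hz
    rcases hz with rfl | rfl | hz
    · exact (hC0K ha₁).1
    · exact (hC0K ha₂).1
    · rw [mem_singleton_iff.1 hz]; exact (hC0K ha₃).1
  have hpX : p ∉ L ∪ T := fun h => hpK (hXK h)
  -- lines through p
  have hline : ∀ a b, a ∈ C₀ → a ∈ ({a₁, a₂, a₃} : Set α) →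
      (b ∈ N.closure (insert p (insert a L)) ∧ b ∉ K ∧ b ∉ N.closure (insert p L)) →
      (N ／ (L ∪ T)).IsCircuit {p, a, b} := by
    rintro a b haC ha3 ⟨hb1, hb2, hb3⟩
    have haK : a ∈ K := (hC0K haC).1
    have haE := hKE haK
    have haT : a ∉ T := fun h => h.2 ha3
    have haX : a ∉ L ∪ T := by
      rintro (h | h)
      · exact (hC0K haC).2 h
      · exact haT h
    have hbE : b ∈ N.E := N.closure_subset_ground _ hb1
    have hbX : b ∉ L ∪ T := fun h => hb2 (hXK h)
    -- a ∉ closure X
    have haX' : a ∉ N.closure (L ∪ T) := by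
      intro h
      have h1 : a ∈ (N ／ L).closure T := by
        rw [contract_closure_eq, union_comm T L]
        exact ⟨h, (hC0K haC).2⟩
      have hTi : (N ／ L).Indep (insert a T) := by
        apply hC0N.ssubset_indep
        refine ⟨insert_subset haC sdiff_subset, fun hh => ?_⟩
        -- all three of a₁,a₂,a₃ in insert a T
        have m1 := hh ha₁
        have m2 := hh ha₂
        have m3 := hh ha₃
        have t1 : a₁ = a := by
          rcases m1 with h | h
          · exact h
          · exact absurd (by simp) h.2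
        have t2 : a₂ = a := by
          rcases m2 with h | h
          · exact h
          · exact absurd (by simp) h.2
        exact h12 (t1.trans t2.symm)
      exact ((hTi.subset (subset_insert _ _)).notMem_closure_iff_of_notMem haT (by
        exact ⟨haE, (hC0K haC).2⟩)).2 hTi h1
    -- p ∉ closure (insert a X)
    have hpa : p ∉ N.closure (insert a (L ∪ T)) := by
      intro h
      apply hpK
      rw [← hKcl]
      exact N.closure_subset_closure (insert_subset haK hXK) h
    have hind : (N ／ (L ∪ T)).Indep {p, a} := by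
      have fN : (N ／ (L ∪ T)).Finite := inferInstance
      have hsub : ({p, a} : Set α) ⊆ (N ／ (L ∪ T)).E := by
        intro z hz
        rcases hz with rfl | hz
        · exact ⟨hpE, hpX⟩
        · rw [mem_singleton_iff.1 hz]; exact ⟨haE, haX⟩
      rw [indep_iff_rk _ hsub]
      have hpa' : p ≠ a := fun h => hpK (h ▸ haK)
      rw [ncard_pair hpa']
      have h1 := rk_contract N hXE (Y := {p, a}) hsub
      have h2 : ({p, a} : Set α) ∪ (L ∪ T) = insert p (insert a (L ∪ T)) := by
        ext z; simp [or_assoc]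
      rw [h2, rk_insert_of_notMem N hpE hpa, rk_insert_of_notMem N haE haX'] at h1
      omega
    have heq : ({p, a, b} : Set α) = insert b {p, a} := by
      ext z; simp only [mem_insert_iff, mem_singleton_iff]; tauto
    rw [heq]
    apply hind.insert_isCircuit_of_forall
    · rintro (h | h)
      · apply hb3
        rw [h]
        exact N.mem_closure_of_mem (mem_insert p L) (insert_subset hpE hLE)
      · rw [mem_singleton_iff.1 h] at hb2
        exact hb2 haK
    · rw [contract_closure_eq]
      refine ⟨?_, hbX⟩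
      refine N.closure_subset_closure ?_ hb1
      intro z hz
      rcases hz with rfl | rfl | hz
      · simp
      · simp
      · exact Or.inr (Or.inl hz)
    · intro f hf hbcl
      rw [contract_closure_eq] at hbcl
      rcases hf with rfl | hf
      · -- b ∈ closure {a} ∪ X ⊆ K
        apply hb2
        rw [← hKcl]
        refine N.closure_subset_closure ?_ hbcl.1
        apply union_subset _ hXK
        rintro z ⟨hz, hzf⟩
        rcases hz with hz | hz
        · exact absurd hz hzf
        · rw [mem_singleton_iff.1 hz]; exact haK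
      · rw [mem_singleton_iff.1 hf] at hbcl
        have hb4 : b ∈ N.closure (insert p (L ∪ T)) := by
          refine N.closure_subset_closure ?_ hbcl.1
          intro z hz
          rcases hz with ⟨hz, hzf⟩ | hz
          · rcases hz with hz | hz
            · exact Or.inl hz
            · exact absurd hz hzf
          · exact Or.inr hz
        -- exchange
        have h5 : b ∈ N.closure (insert a (insert p L)) := by
          rw [insert_comm]; exact hb1
        have h6 := N.closure_exchange (X := insert p L) (e := b) (f := a) ⟨h5, hb3⟩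
        have h7 : a ∈ N.closure (insert p (L ∪ T)) := by
          have hsub : N.closure (insert b (insert p L)) ⊆ N.closure (insert p (L ∪ T)) := by
            apply N.closure_subset_closure_of_subset_closure
            apply insert_subset hb4
            apply insert_subset
            · exact N.mem_closure_of_mem (mem_insert p _) (insert_subset hpE hXE)
            · intro z hz
              exact N.mem_closure_of_mem (Or.inr (Or.inl hz)) (insert_subset hpE hXE)
          exact hsub h6.1
        exact haX' (mem_of_hyper hXK hKcl hpE hpK haK h7)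
  exact hno (L ∪ T) hXE ⟨p, a₁, a₂, a₃, b₁, b₂, b₃, h12, h13, h23, htri, hpcl,
    hline a₁ b₁ ha₁ (by simp) hb₁, hline a₂ b₂ ha₂ (by simp) hb₂, hline a₃ b₃ ha₃ (by simp) hb₃⟩

end H211.MC
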