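import Pool.Agent.H211R2.MC.Cov

set_option autoImplicit false

/-! Two skew heavy circuits of a connected matroid give a heavier circuit. -/

namespace H211.MC

open Set Matroid

variable {α : Type*} {M : Matroid α}

structure Link (M : Matroid α) (C₁ C₂ S : Set α) : Prop where
  h1 : M.IsCircuit C₁
  h2 : M.IsCircuit C₂
  d12 : Disjoint C₁ C₂
  d1 : Disjoint C₁ S
  d2 : Disjoint C₂ S
  inner : ∀ Z, M.IsCircuit Z → Z ⊆ C₁ ∪ C₂ → Z = C₁ ∨ Z = C₂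
  full : ∀ Z, M.IsCircuit Z → Z ⊆ C₁ ∪ C₂ ∪ S → (Z ∩ S).Nonempty →
    S ⊆ Z ∧ (Z ∩ C₁).Nonempty ∧ (Z ∩ C₂).Nonempty

lemma Link.symm {C₁ C₂ S : Set α} (h : Link M C₁ C₂ S) : Link M C₂ C₁ S :=
  ⟨h.h2, h.h1, h.d12.symm, h.d2, h.d1, fun Z hZ hs => (h.inner Z hZ (by rwa [union_comm])).symm,
    fun Z hZ hs hne => by
      have := h.full Z hZ (by rwa [union_comm C₁ C₂]) hne
      exact ⟨this.1, this.2.2, this.2.1⟩⟩

lemma Link.half {C₁ C₂ S Z : Set α} (h : Link M C₁ C₂ S) (hZ : M.IsCircuit Z)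
    (hs : Z ⊆ C₁ ∪ C₂ ∪ S) (hne : (Z ∩ S).Nonempty) :
    ∃ Z', M.IsCircuit Z' ∧ Z' ⊆ C₁ ∪ C₂ ∪ S ∧ (Z' ∩ S).Nonempty ∧ Z' ∩ C₂ = Z ∩ C₂ ∧
      C₁ ⊆ Z ∪ Z' := by
  obtain ⟨hSZ, ⟨x, hxZ, hxC⟩, ⟨y0, hy0Z, hy0C⟩⟩ := h.full Z hZ hs hne
  obtain ⟨s, hsZ, hsS⟩ := hne
  have hs1 : s ∉ C₁ := fun hh => Set.disjoint_left.1 h.d1 hh hsS
  obtain ⟨Z', hZ's, hZ', hsZ'⟩ := hZ.strong_elimination h.h1 hxZ hxC hsZ hs1
  have hZ'sub : Z' ⊆ C₁ ∪ C₂ ∪ S := by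
    intro z hz
    rcases (hZ's hz).1 with h' | h'
    · exact hs h'
    · exact Or.inl (Or.inl h')
  have hxZ' : x ∉ Z' := fun hh => (hZ's hh).2 rfl
  -- a circuit inside (Z ∪ Z') \ {s} avoids S, hence is C₁ or C₂
  have avoid : ∀ Z'', M.IsCircuit Z'' → Z'' ⊆ (Z ∪ Z') \ {s} → Z'' = C₁ ∨ Z'' = C₂ := by
    intro Z'' hZ'' hsub
    have hsub2 : Z'' ⊆ C₁ ∪ C₂ ∪ S := by
      intro z hz
      rcases (hsub hz).1 with h' | h'
      · exact hs h'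
      · exact hZ'sub h'
    have hempty : ¬ (Z'' ∩ S).Nonempty := by
      intro hh
      have := (h.full Z'' hZ'' hsub2 hh).1 hsS
      exact (hsub this).2 rfl
    apply h.inner Z'' hZ''
    intro z hz
    rcases hsub2 hz with h' | h'
    · exact h'
    · exact absurd ⟨z, hz, h'⟩ hempty
  refine ⟨Z', hZ', hZ'sub, ⟨s, hsZ', hsS⟩, ?_, ?_⟩
  · apply subset_antisymm
    · rintro z ⟨hz1, hz2⟩
      refine ⟨?_, hz2⟩
      rcases (hZ's hz1).1 with h' | h'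
      · exact h'
      · exact absurd hz2 (Set.disjoint_left.1 h.d12 h')
    · rintro y ⟨hy1, hy2⟩
      refine ⟨?_, hy2⟩
      by_contra hyZ'
      obtain ⟨Z'', hZ''s, hZ'', hyZ''⟩ := hZ.strong_elimination hZ' hsZ hsZ' hy1 hyZ'
      rcases avoid Z'' hZ'' hZ''s with h' | h'
      · rw [h'] at hyZ''
        exact Set.disjoint_left.1 h.d12 hyZ'' hy2
      · have hsubZ : C₂ ⊆ Z := by
          intro z hz
          rw [← h'] at hz
          rcases (hZ''s hz).1 with h3 | h3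
          · exact h3
          · rw [h'] at hz
            rcases (hZ's h3).1 with h4 | h4
            · exact h4
            · exact absurd hz (Set.disjoint_left.1 h.d12 h4)
        have := h.h2.eq_of_subset_isCircuit hZ hsubZ
        rw [← this] at hsZ
        exact Set.disjoint_left.1 h.d2 hsZ hsS
  · intro t ht
    by_contra hcon
    obtain ⟨Z'', hZ''s, hZ'', hxZ''⟩ := hZ.strong_elimination hZ' hsZ hsZ' hxZ hxZ'
    rcases avoid Z'' hZ'' hZ''s with h' | h'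
    · rw [← h'] at ht
      exact hcon (hZ''s ht).1
    · rw [h'] at hxZ''
      exact Set.disjoint_left.1 h.d12 hxC hxZ''

theorem skew_big (hM : Good M) {C₁ C₂ : Set α} (h1 : M.IsCircuit C₁) (h2 : M.IsCircuit C₂)
    (hsk : rk M C₁ + rk M C₂ ≤ rk M (C₁ ∪ C₂)) (w : α → ℕ) (hw : ∀ e ∈ M.E, 1 ≤ w e) (ν : ℕ)
    (hw1 : 2 * ν ≤ W w C₁ + 1) (hw2 : 2 * ν ≤ W w C₂ + 1) :
    ∃ C, M.IsCircuit C ∧ 2 * ν + 1 ≤ W w C := by
  classical
  haveI := hM.fin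
  have hfin : M.E.Finite := M.ground_finite
  have hd : Disjoint C₁ C₂ := by
    rw [Set.disjoint_left]
    intro x hx1 hx2
    have := skew_mono M hsk (X := {x}) (Y := {x}) (by simpa using hx1) (by simpa using hx2)
    rw [union_self, hM.ll x (h1.subset_ground hx1)] at this
    omega
  have inner : ∀ Z, M.IsCircuit Z → Z ⊆ C₁ ∪ C₂ → Z = C₁ ∨ Z = C₂ := by
    intro Z hZ hs
    rcases skew_circuit M hsk hZ hs with h | h
    · exact Or.inl (hZ.eq_of_subset_isCircuit h1 h)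
    · exact Or.inr (hZ.eq_of_subset_isCircuit h2 h)
  obtain ⟨x0, hx0⟩ := h1.nonempty
  obtain ⟨y0, hy0⟩ := h2.nonempty
  have hxy0 : x0 ≠ y0 := fun h => Set.disjoint_left.1 hd hx0 (h ▸ hy0)
  obtain ⟨Z0, hZ0, hx0Z, hy0Z⟩ := hM.conn.exists_circuit (h1.subset_ground hx0)
    (h2.subset_ground hy0) hxy0
  -- minimal circuit
  have hex : ∃ n, ∃ Z, M.IsCircuit Z ∧ (Z ∩ C₁).Nonempty ∧ (Z ∩ C₂).Nonempty ∧
      (Z \ (C₁ ∪ C₂)).ncard = n := ⟨_, Z0, hZ0, ⟨x0, hx0Z, hx0⟩, ⟨y0, hy0Z, hy0⟩, rfl⟩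
  obtain ⟨Z, hZ, hZ1, hZ2, hZn⟩ := Nat.find_spec hex
  have hmin : ∀ Z', M.IsCircuit Z' → (Z' ∩ C₁).Nonempty → (Z' ∩ C₂).Nonempty →
      Z' \ (C₁ ∪ C₂) ⊆ Z \ (C₁ ∪ C₂) → Z' \ (C₁ ∪ C₂) = Z \ (C₁ ∪ C₂) := by
    intro Z' hZ' h1' h2' hsub
    by_contra hne
    have hlt : (Z' \ (C₁ ∪ C₂)).ncard < (Z \ (C₁ ∪ C₂)).ncard := by
      exact ncard_lt_ncard (hsub.ssubset_of_ne hne) ((hfin.subset hZ.subset_ground).sdiff)
    rw [hZn] at hlt
    exact Nat.find_min hex hlt ⟨Z', hZ', h1', h2', rfl⟩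
  set S := Z \ (C₁ ∪ C₂) with hS
  have hSne : S.Nonempty := by
    rw [nonempty_iff_ne_empty]
    intro h0
    have hsub : Z ⊆ C₁ ∪ C₂ := sdiff_eq_empty.1 h0
    rcases inner Z hZ hsub with h | h
    · obtain ⟨y, hy, hy2⟩ := hZ2
      rw [h] at hy
      exact Set.disjoint_left.1 hd hy hy2
    · obtain ⟨y, hy, hy2⟩ := hZ1
      rw [h] at hy
      exact Set.disjoint_left.1 hd hy2 hy
  have dS1 : Disjoint C₁ S := by
    rw [Set.disjoint_left]; intro z hz hzS; exact hzS.2 (Or.inl hz)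
  have dS2 : Disjoint C₂ S := by
    rw [Set.disjoint_left]; intro z hz hzS; exact hzS.2 (Or.inr hz)
  have hout : ∀ Z', Z' ⊆ C₁ ∪ C₂ ∪ S → Z' \ (C₁ ∪ C₂) ⊆ S := by
    intro Z' h' z hz
    rcases h' hz.1 with h3 | h3
    · exact absurd h3 hz.2
    · exact h3
  have hSZ : S ⊆ Z := sdiff_subset
  -- circuits meeting S meet both sides
  have meet : ∀ A B : Set α, (A = C₁ ∧ B = C₂ ∨ A = C₂ ∧ B = C₁) → ∀ Z', M.IsCircuit Z' →
      Z' ⊆ C₁ ∪ C₂ ∪ S → (Z' ∩ S).Nonempty → (Z' ∩ B).Nonempty := by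
    intro A B hAB Z' hZ' hsub hne
    by_contra hB
    obtain ⟨s, hsZ', hsS⟩ := hne
    have hZB : (Z ∩ B).Nonempty := by
      rcases hAB with ⟨_, h⟩ | ⟨_, h⟩ <;> rw [h] <;> assumption
    have hZA : (Z ∩ A).Nonempty := by
      rcases hAB with ⟨h, _⟩ | ⟨h, _⟩ <;> rw [h] <;> assumption
    have hAB12 : C₁ ∪ C₂ = A ∪ B := by
      rcases hAB with ⟨h, h'⟩ | ⟨h, h'⟩
      · rw [h, h']
      · rw [h, h', union_comm]
    obtain ⟨z, hzZ, hzB⟩ := hZB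
    have hzZ' : z ∉ Z' := fun hh => hB ⟨z, hh, hzB⟩
    obtain ⟨Z'', hZ''s, hZ'', hzZ''⟩ := hZ.strong_elimination hZ' (hSZ hsS) hsZ' hzZ hzZ'
    have hsub2 : Z'' ⊆ C₁ ∪ C₂ ∪ S := by
      intro t ht
      rcases (hZ''s ht).1 with h' | h'
      · by_cases ht2 : t ∈ C₁ ∪ C₂
        · exact Or.inl ht2
        · exact Or.inr ⟨h', ht2⟩
      · exact hsub h'
    by_cases hA'' : (Z'' ∩ A).Nonempty
    · have hb1 : (Z'' ∩ C₁).Nonempty ∧ (Z'' ∩ C₂).Nonempty := by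
        rcases hAB with ⟨h, h'⟩ | ⟨h, h'⟩
        · exact ⟨h ▸ hA'', h' ▸ ⟨z, hzZ'', hzB⟩⟩
        · exact ⟨h' ▸ ⟨z, hzZ'', hzB⟩, h ▸ hA''⟩
      have heq := hmin Z'' hZ'' hb1.1 hb1.2 (hout Z'' hsub2)
      have : s ∈ Z'' \ (C₁ ∪ C₂) := by rw [heq]; exact hsS
      exact (hZ''s this.1).2 rfl
    · have hZZ : Z'' ⊆ Z := by
        intro t ht
        rcases (hZ''s ht).1 with h' | h'
        · exact h'
        · rcases hsub h' with h3 | h3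
          · rw [hAB12] at h3
            rcases h3 with h3 | h3
            · exact absurd ⟨t, ht, h3⟩ hA''
            · exact absurd ⟨t, h', h3⟩ hB
          · exact hSZ h3
      have := hZ''.eq_of_subset_isCircuit hZ hZZ
      rw [this] at hZ''s
      exact (hZ''s (hSZ hsS)).2 rfl
  have hL : Link M C₁ C₂ S := by
    refine ⟨h1, h2, hd, dS1, dS2, inner, ?_⟩
    intro Z' hZ' hsub hne
    have a1 := meet C₂ C₁ (Or.inr ⟨rfl, rfl⟩) Z' hZ' hsub hne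
    have a2 := meet C₁ C₂ (Or.inl ⟨rfl, rfl⟩) Z' hZ' hsub hne
    refine ⟨?_, a1, a2⟩
    have := hmin Z' hZ' a1 a2 (hout Z' hsub)
    rw [← this]; exact sdiff_subset
  -- general half step with weights
  have step : ∀ {A B : Set α} {Z : Set α}, Link M A B S → 2 * ν ≤ W w A + 1 → M.IsCircuit Z →
      Z ⊆ A ∪ B ∪ S → (Z ∩ S).Nonempty →
      ∃ Z', M.IsCircuit Z' ∧ Z' ⊆ A ∪ B ∪ S ∧ (Z' ∩ S).Nonempty ∧ Z' ∩ B = Z ∩ B ∧
        ν ≤ W w (Z' ∩ A) := by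
    intro A B Z hL hWA hZ hs hne
    obtain ⟨Z', hZ', hs', hne', hB, hA⟩ := hL.half hZ hs hne
    have fA : A.Finite := hfin.subset hL.h1.subset_ground
    have e1 : W w A ≤ W w (Z ∩ A) + W w (Z' ∩ A) := by
      have : A ⊆ (Z ∩ A) ∪ (Z' ∩ A) := by
        intro a ha
        rcases hA ha with h | h
        · exact Or.inl ⟨h, ha⟩
        · exact Or.inr ⟨h, ha⟩
      exact (W_mono w ((fA.subset inter_subset_right).union (fA.subset inter_subset_right)) this).trans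
        (W_union_le w (fA.subset inter_subset_right) (fA.subset inter_subset_right))
    by_cases hcase : ν ≤ W w (Z ∩ A)
    · exact ⟨Z, hZ, hs, hne, rfl, hcase⟩
    · exact ⟨Z', hZ', hs', hne', hB, by omega⟩
  have hZsub : Z ⊆ C₁ ∪ C₂ ∪ S := by
    intro t ht
    by_cases ht2 : t ∈ C₁ ∪ C₂
    · exact Or.inl ht2
    · exact Or.inr ⟨ht, ht2⟩
  obtain ⟨Z1, hZ1c, hZ1s, hZ1n, _, hZ1w⟩ := step hL hw1 hZ hZsub (by
    obtain ⟨s, hs⟩ := hSne; exact ⟨s, hSZ hs, hs⟩)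
  obtain ⟨Z2, hZ2c, hZ2s, hZ2n, hZ2e, hZ2w⟩ := step hL.symm hw2 hZ1c
    (by rwa [union_comm C₂ C₁]) hZ1n
  refine ⟨Z2, hZ2c, ?_⟩
  obtain ⟨s, hsZ2, hsS⟩ := hZ2n
  have f2 : Z2.Finite := hfin.subset hZ2c.subset_ground
  have hsub3 : (Z2 ∩ C₁) ∪ (Z2 ∩ C₂) ∪ {s} ⊆ Z2 := by
    intro t ht
    rcases ht with (ht | ht) | ht
    · exact ht.1
    · exact ht.1
    · rw [mem_singleton_iff.1 ht]; exact hsZ2
  have fa : (Z2 ∩ C₁).Finite := f2.subset inter_subset_left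
  have fb : (Z2 ∩ C₂).Finite := f2.subset inter_subset_left
  have e1 := W_mono w f2 hsub3
  rw [W_union w (fa.union fb) (finite_singleton s) (by
      rw [Set.disjoint_singleton_right]
      rintro (h | h)
      · exact Set.disjoint_left.1 dS1 h.2 hsS
      · exact Set.disjoint_left.1 dS2 h.2 hsS),
    W_union w fa fb (hd.mono inter_subset_right inter_subset_right)] at e1
  have e2 := le_W w (finite_singleton s) (x := s) rfl
  have e3 := hw s (hZ2c.subset_ground hsZ2)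
  rw [hZ2e] at e1
  omega

end H211.MC
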