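import Pool.Agent.H211R2.MC.Expo
import Pool.Agent.H211R2.MC.Skew

set_option autoImplicit false

/-! Main theorem: covers by cocircuits for connected matroids without seven point minors. -/

namespace H211.MC

open Set Matroid

variable {α : Type*}

lemma spanning_iff_rk (M : Matroid α) [M.Finite] {X : Set α} (hX : X ⊆ M.E) :
    M.Spanning X ↔ rk M M.E ≤ rk M X := by
  rw [spanning_iff_eRk_le hX, Matroid.eRank_def, ← cast_rk, ← cast_rk]
  exact_mod_cast Iff.rfl

lemma cocircuit_of_hyper (M : Matroid α) [M.Finite] {H : Set α} (hH : H ⊆ M.E)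
    (hcl : M.closure H = H) (hr : rk M H + 1 = rk M M.E) : M.IsCocircuit (M.E \ H) := by
  rw [isCocircuit_iff_minimal_compl_nonspanning, minimal_subset_iff]
  constructor
  · rw [sdiff_sdiff_cancel_left hH, spanning_iff_rk M hH]
    omega
  · intro X hX hXs
    apply subset_antisymm _ hXs
    intro e he
    by_contra heX
    apply hX
    rw [spanning_iff_rk M sdiff_subset]
    have h1 := rk_insert_of_notMem M he.1 (by rw [hcl]; exact he.2)
    have h2 : insert e H ⊆ M.E \ X := by
      refine insert_subset (show e ∈ M.E \ X from ⟨he.1, heX⟩) ?_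
      intro z hz
      exact ⟨hH hz, fun h => (hXs h).2 hz⟩
    have := rk_mono M h2
    omega

lemma hyper_of_cocircuit (M : Matroid α) [M.Finite] {D : Set α} (hD : M.IsCocircuit D) :
    M.closure (M.E \ D) = M.E \ D ∧ rk M (M.E \ D) + 1 = rk M M.E := by
  have hDE := hD.subset_ground
  rw [isCocircuit_iff_minimal_compl_nonspanning] at hD
  have h1 : rk M (M.E \ D) < rk M M.E := by
    have := hD.prop
    rw [spanning_iff_rk M sdiff_subset] at this
    omega
  have h2 : ∀ e ∈ D, rk M M.E ≤ rk M (insert e (M.E \ D)) := by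
    intro e he
    have hss : D \ {e} ⊂ D := sdiff_singleton_ssubset.2 he
    have := hD.not_prop_of_ssubset hss
    rw [not_not, spanning_iff_rk M sdiff_subset] at this
    have h3 : M.E \ (D \ {e}) ⊆ insert e (M.E \ D) := by
      intro z hz
      by_cases hze : z = e
      · exact Or.inl hze
      · exact Or.inr ⟨hz.1, fun h => hz.2 ⟨h, hze⟩⟩
    exact this.trans (rk_mono M h3)
  constructor
  · apply subset_antisymm _ (M.subset_closure _ sdiff_subset)
    intro e he
    refine ⟨M.closure_subset_ground _ he, fun heD => ?_⟩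
    have := rk_insert_of_mem M he
    have := h2 e heD
    omega
  · obtain ⟨e, he⟩ : D.Nonempty := by
      rw [nonempty_iff_ne_empty]
      rintro rfl
      rw [sdiff_empty] at h1; omega
    have := h2 e he
    have := rk_insert_le M e (M.E \ D)
    omega

/-- no seven point minors -/
def NoSeven (M : Matroid α) : Prop := ∀ X ⊆ M.E, ¬ SevenPoint (M ／ X)

/-- The transversal lemma. -/
theorem transversal {M : Matroid α} (hM : Good M) (hno : NoSeven M) (w : α → ℕ)
    (hw : ∀ e ∈ M.E, 1 ≤ w e) (ν : ℕ) (hν : ∀ C, M.IsCircuit C → W w C ≤ 2 * ν) :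
    ∃ D, M.IsCocircuit D ∧ ∀ C, M.IsCircuit C → 2 * ν ≤ W w C + 1 → (C ∩ D).Nonempty := by
  classical
  by_contra hcon
  push Not at hcon
  have := hM.fin
  have hfin : M.E.Finite := M.ground_finite
  -- every hyperplane contains a heavy circuit
  have hhyp : ∀ H ⊆ M.E, M.closure H = H → rk M H + 1 = rk M M.E →
      ∃ C, M.IsCircuit C ∧ 2 * ν ≤ W w C + 1 ∧ C ⊆ H := by
    intro H hH hcl hr
    obtain ⟨C, hC, hCw, hCe⟩ := hcon _ (cocircuit_of_hyper M hH hcl hr)
    refine ⟨C, hC, hCw, fun z hz => ?_⟩
    by_contra hzH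
    have : z ∈ C ∩ (M.E \ H) := ⟨hz, hC.subset_ground hz, hzH⟩
    rw [hCe] at this
    exact this
  -- pairs (F, K)
  let Q : Set α → Set α → Prop := fun F K => F ⊆ M.E ∧ K ⊆ M.E ∧ M.closure (F ∪ K) = F ∪ K ∧
    Disjoint F K ∧ rk M F + rk M K ≤ rk M (F ∪ K) ∧ rk M (F ∪ K) + 1 = rk M M.E ∧
    ∃ C, M.IsCircuit C ∧ 2 * ν ≤ W w C + 1 ∧ C ⊆ K
  have hex : ∃ n, ∃ F K, Q F K ∧ rk M K = n := by
    obtain ⟨e, he⟩ := hM.ne
    obtain ⟨D, hD, _⟩ := hM.exists_cocircuit he
    obtain ⟨h1, h2⟩ := hyper_of_cocircuit M hD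
    obtain ⟨C, hC⟩ := hhyp (M.E \ D) sdiff_subset h1 h2
    refine ⟨_, ∅, M.E \ D, ⟨empty_subset _, sdiff_subset, by rwa [empty_union],
      empty_disjoint _, by rw [rk_empty, empty_union]; omega, by rwa [empty_union], C, hC⟩, rfl⟩
  obtain ⟨F, K, hQ, hKn⟩ := Nat.find_spec hex
  have hmin : ∀ F' K', Q F' K' → rk M K ≤ rk M K' := by
    intro F' K' hQ'
    by_contra hlt
    push Not at hlt
    rw [hKn] at hlt
    exact Nat.find_min hex hlt ⟨F', K', hQ', rfl⟩
  obtain ⟨hFE, hKE, hcl, hdj, hsk, hr, C, hC, hCw, hCK⟩ := hQ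
  have hpos : ∀ X ⊆ M.E, X.Nonempty → 1 ≤ rk M X := by
    rintro X hX ⟨x, hx⟩
    rw [← hM.ll x (hX hx)]
    exact rk_mono M (by simpa using hx)
  -- K is connected
  have hKG : Good (M ↾ K) := by
    refine ⟨Matroid.restrict_finite (hfin.subset hKE), ?_, ?_, ?_⟩
    · obtain ⟨x, hx⟩ := hC.nonempty
      exact ⟨x, hCK hx⟩
    · intro e he
      have he' : e ∈ K := he
      rw [rk_restrict M (by simpa using he')]
      exact hM.ll e (hKE he')
    · intro A hA hAne hBne
      have hA' : A ⊆ K := hA
      have hB' : (K \ A).Nonempty := hBne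
      rw [restrict_ground_eq, rk_restrict M subset_rfl, rk_restrict M hA', rk_restrict M sdiff_subset]
      by_contra hlt
      push Not at hlt
      have hU : A ∪ (K \ A) = K := union_sdiff_cancel hA'
      have two : ∀ K1 K2, K1 ∪ K2 = K → Disjoint K1 K2 → K2.Nonempty → C ⊆ K1 →
          rk M K1 + rk M K2 ≤ rk M K → False := by
        intro K1 K2 h12 hd hne hC1 hle
        have s1 : K1 ⊆ K := h12 ▸ subset_union_left
        have s2 : K2 ⊆ K := h12 ▸ subset_union_right
        have hEq : (F ∪ K2) ∪ K1 = F ∪ K := by rw [union_assoc, union_comm K2 K1, h12]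
        have hle2 := rk_union_le M F K2
        have p2 := hpos K2 (s2.trans hKE) hne
        have := hmin (F ∪ K2) K1 ⟨union_subset hFE (s2.trans hKE), s1.trans hKE, by rwa [hEq],
          by
            rw [Set.disjoint_union_left]
            exact ⟨hdj.mono_right s1, hd.symm⟩, by rw [hEq]; omega, by rwa [hEq], C, hC, hCw, hC1⟩
        omega
      rcases skew_circuit M (A := A) (B := K \ A) (by rw [hU]; exact hlt) hC (by rw [hU]; exact hCK)
        with h | h
      · exact two A (K \ A) hU disjoint_sdiff_right hB' h hlt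
      · exact two (K \ A) A (by rw [union_comm]; exact hU) disjoint_sdiff_left hAne h (by omega)
  -- the contraction
  set N := M ／ F with hN
  have fN : N.Finite := inferInstance
  have gN : N.E = M.E \ F := rfl
  have hKN : K ⊆ N.E := fun z hz => ⟨hKE hz, fun h => Set.disjoint_left.1 hdj h hz⟩
  have hrN : ∀ Y ⊆ N.E, rk N Y + rk M F = rk M (Y ∪ F) := fun Y hY => rk_contract M hFE hY
  have hrK : ∀ Y ⊆ K, rk N Y = rk M Y := by
    intro Y hY
    have h1 := hrN Y (hY.trans hKN)
    have h2 := skew_mono M hsk (X := F) (Y := Y) subset_rfl hY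
    have h3 := rk_union_le M F Y
    rw [union_comm] at h1
    omega
  have hFcl : M.closure F ⊆ F ∪ K := by
    rw [← hcl]; exact M.closure_subset_closure subset_union_left
  have hllN : ∀ e ∈ N.E, rk N {e} = 1 := by
    intro e he
    have he' : e ∈ M.E \ F := he
    have h1 := hrN {e} (by simpa using he)
    have h2 : e ∉ M.closure F := by
      intro h
      rcases hFcl h with h3 | h3
      · exact he'.2 h3
      · have h4 := hrK {e} (by simpa using h3)
        rw [hM.ll e he'.1] at h4
        have h5 := rk_insert_of_mem M h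
        rw [singleton_union] at h1
        omega
    have h3 := rk_insert_of_notMem M he'.1 h2
    rw [singleton_union] at h1
    omega
  have hKclN : N.closure K = K := by
    rw [hN, contract_closure_eq, union_comm K F, hcl, union_sdiff_left]
    exact hdj.symm.sdiff_eq_left
  have hnoN : ∀ X ⊆ N.E, ¬ SevenPoint (N ／ X) := by
    intro X hX
    rw [hN, contract_contract]
    exact hno _ (union_subset hFE (hX.trans sdiff_subset))
  have hKGN : Good (N ↾ K) := by
    refine ⟨Matroid.restrict_finite (hfin.subset hKE), hKG.ne, ?_, ?_⟩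
    · intro e he
      have he' : e ∈ K := he
      rw [rk_restrict N (by simpa using he')]
      exact hllN e (hKN he')
    · intro A hA hAne hBne
      have hA' : A ⊆ K := hA
      have h1 := hKG.conn A hA hAne hBne
      rw [restrict_ground_eq, rk_restrict M subset_rfl, rk_restrict M hA', rk_restrict M sdiff_subset] at h1
      rw [restrict_ground_eq, rk_restrict N subset_rfl, rk_restrict N hA', rk_restrict N sdiff_subset,
        hrK K subset_rfl, hrK A hA', hrK _ sdiff_subset]
      exact h1
  -- an element outside the hyperplane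
  obtain ⟨p, hpE, hpFK⟩ : ∃ p ∈ M.E, p ∉ F ∪ K := by
    by_contra h
    push Not at h
    have := rk_mono M (X := M.E) (Y := F ∪ K) h
    omega
  have hpF : p ∉ F := fun h => hpFK (Or.inl h)
  have hpK : p ∉ K := fun h => hpFK (Or.inr h)
  obtain ⟨L, hLK, hLcl, hLr, hLe⟩ := exposed N fN hllN hnoN hKN hKclN hKGN (p := p) ⟨hpE, hpF⟩ hpK
  have hLE : L ⊆ M.E := hLK.trans hKE
  have rL := hrK L hLK
  have rK := hrK K subset_rfl
  -- the new hyperplane
  set F' := M.closure (insert p F) with hF'
  set H' := M.closure (insert p (F ∪ L)) with hH'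
  have hF'E : F' ⊆ M.E := M.closure_subset_ground _
  have hF'r : rk M F' ≤ rk M F + 1 := by rw [hF', rk_closure]; exact rk_insert_le M p F
  have hpcl : p ∉ M.closure (F ∪ L) := by
    intro h
    apply hpFK
    rw [← hcl]
    exact M.closure_subset_closure (union_subset_union_right F hLK) h
  have rFL : rk M (F ∪ L) = rk M F + rk M L := by
    have h2 := skew_mono M hsk (X := F) (Y := L) subset_rfl hLK
    have h3 := rk_union_le M F L
    omega
  have rFK : rk M (F ∪ K) = rk M F + rk M K := by
    have h3 := rk_union_le M F K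
    omega
  have hH'r : rk M H' + 1 = rk M M.E := by
    rw [hH', rk_closure, rk_insert_of_notMem M hpE hpcl]
    omega
  have hH'E : H' ⊆ M.E := M.closure_subset_ground _
  obtain ⟨C', hC', hC'w, hC'H⟩ := hhyp H' hH'E (by rw [hH', Matroid.closure_closure]) hH'r
  have hNcl : ∀ x, x ∈ H' → x ∉ F → x ∈ N.closure (insert p L) := by
    intro x hx hxF
    rw [hN, contract_closure_eq]
    refine ⟨?_, hxF⟩
    have : insert p L ∪ F = insert p (F ∪ L) := by
      ext z; simp only [mem_union, mem_insert_iff]; tauto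
    rw [this]; exact hx
  have hsub : H' ⊆ L ∪ F' := by
    intro x hx
    by_cases hxF : x ∈ F
    · exact Or.inr (M.subset_closure _ (insert_subset hpE hFE) (Or.inr hxF))
    by_cases hxK : x ∈ K
    · left
      have := mem_of_hyper (N := N) hLK hKclN ⟨hpE, hpF⟩ hpK hxK (hNcl x hx hxF)
      rwa [hLcl] at this
    · right
      have h1 := hLe ⟨hNcl x hx hxF, hxK⟩
      rw [hN, contract_closure_eq, singleton_union] at h1
      exact h1.1
  have hsup : L ∪ F' ⊆ H' := by
    apply union_subset
    · intro z hz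
      exact M.subset_closure _ (insert_subset hpE (union_subset hFE hLE)) (Or.inr (Or.inr hz))
    · exact M.closure_subset_closure (insert_subset_insert subset_union_left)
  have hEq : L ∪ F' = H' := subset_antisymm hsup hsub
  have hskew : rk M L + rk M F' ≤ rk M (L ∪ F') := by
    rw [hEq]; omega
  rcases skew_circuit M hskew hC' (by rw [hEq]; exact hC'H) with h | h
  · have hd : Disjoint F' L := by
      rw [Set.disjoint_left]
      intro x hx1 hx2
      have h1 := skew_mono M hskew (X := {x}) (Y := {x}) (by simpa using hx2) (by simpa using hx1)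
      rw [union_self, hM.ll x (hLE hx2)] at h1
      omega
    have := hmin F' L ⟨hF'E, hLE, by rw [union_comm, hEq, hH', Matroid.closure_closure], hd,
      by rw [union_comm F' L]; omega, by rw [union_comm, hEq]; exact hH'r, C', hC', hC'w, h⟩
    omega
  · have hKF' : rk M K + rk M F' ≤ rk M (K ∪ F') := by
      have h1 : insert p (F ∪ K) ⊆ K ∪ F' := by
        apply insert_subset
        · exact Or.inr (M.mem_closure_of_mem (mem_insert p F) (insert_subset hpE hFE))
        · apply union_subset
          · intro z hz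
            exact Or.inr (M.subset_closure _ (insert_subset hpE hFE) (Or.inr hz))
          · exact subset_union_left
      have h2 := rk_mono M h1
      rw [rk_insert_of_notMem M hpE (by rw [hcl]; exact hpFK)] at h2
      omega
    have hCC := skew_mono M hKF' hCK h
    obtain ⟨C3, hC3, hC3w⟩ := skew_big hM hC hC' hCC w hw ν hCw hC'w
    have := hν C3 hC3
    omega

lemma NoSeven.delete {M : Matroid α} (h : NoSeven M) (e : α) : NoSeven (M ＼ {e}) := by
  intro X hX hS
  have hX' : X ⊆ M.E \ {e} := hX
  have hdj : Disjoint X {e} := by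
    rw [Set.disjoint_singleton_right]; exact fun hh => (hX' hh).2 rfl
  have heq : (M ＼ {e}) ／ X = (M ／ X) ＼ {e} := (contract_delete_comm M hdj).symm
  rw [heq] at hS
  apply h X (hX'.trans sdiff_subset)
  obtain ⟨p, a₁, a₂, a₃, b₁, b₂, b₃, h12, h13, h23, hc, hp, c1, c2, c3⟩ := hS
  refine ⟨p, a₁, a₂, a₃, b₁, b₂, b₃, h12, h13, h23, hc.of_delete, ?_, c1.of_delete, c2.of_delete,
    c3.of_delete⟩
  intro hpc
  apply hp
  have hpE : p ∈ ((M ／ X) ＼ {e}).E := c1.subset_ground (by simp)
  have hd2 : Disjoint ({a₁, a₂, a₃} : Set α) {e} := by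
    rw [Set.disjoint_singleton_right]
    exact fun hh => (hc.subset_ground hh).2 rfl
  rw [delete_closure_eq_of_disjoint _ hd2]
  exact ⟨hpc, hpE.2⟩

lemma NoSeven.contract {M : Matroid α} (h : NoSeven M) {e : α} (he : e ∈ M.E) :
    NoSeven (M ／ {e}) := by
  intro X hX
  rw [contract_contract]
  exact h _ (union_subset (by simpa using he) (hX.trans sdiff_subset))

/-- The main theorem on covers. -/
theorem cover (n : ℕ) : ∀ (M : Matroid α), Good M → NoSeven M → ∀ (w : α → ℕ) (k : ℕ),
    M.E.ncard + W w M.E = n → (∀ e ∈ M.E, w e ≤ k) → (∀ C, M.IsCircuit C → W w C ≤ 2 * k) →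
    ∃ D : Fin k → Set α, (∀ i, M.IsCocircuit (D i)) ∧ ∀ e ∈ M.E, w e ≤ cnt D e := by
  classical
  induction n using Nat.strong_induction_on with
  | _ n ih =>
  intro M hM hno w k hn hwk hk
  have := hM.fin
  have hfin : M.E.Finite := M.ground_finite
  obtain ⟨e0, he0⟩ := hM.ne
  by_cases h1 : M.E ⊆ {e0}
  · obtain ⟨D, hD, heD⟩ := hM.exists_cocircuit he0
    refine ⟨fun _ => D, fun _ => hD, fun f hf => ?_⟩
    have hfe : f = e0 := h1 hf
    rw [cnt_const D (hfe ▸ heD)]
    exact hwk f hf
  obtain ⟨f0, hf0, hf0e⟩ := Set.not_subset.1 h1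
  have hf0e' : f0 ≠ e0 := hf0e
  have h2 : 2 ≤ M.E.ncard := by
    have : ({e0, f0} : Set α) ⊆ M.E := by
      intro z hz
      rcases hz with rfl | hz
      · exact he0
      · rw [mem_singleton_iff.1 hz]; exact hf0
    have := ncard_le_ncard this hfin
    rwa [ncard_pair hf0e'.symm] at this
  by_cases hz : ∃ f ∈ M.E, w f = 0
  · obtain ⟨f, hf, hwf⟩ := hz
    have hcard : (M.E \ {f}).ncard + 1 = M.E.ncard := ncard_sdiff_singleton_add_one hf hfin
    have hW := W_mono w hfin (sdiff_subset : M.E \ {f} ⊆ M.E)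
    rcases hM.minor hf h2 with hG | hG
    · obtain ⟨D, hD, hcov⟩ := ih ((M.E \ {f}).ncard + W w (M.E \ {f})) (by omega) (M ＼ {f}) hG
        (hno.delete f) w k rfl (fun e he => hwk e he.1) (fun C hC => hk C hC.of_delete)
      choose K hK using fun i => cocircuit_lift_delete (hD i)
      refine ⟨K, fun i => (hK i).1, fun g hg => ?_⟩
      by_cases hgf : g = f
      · rw [hgf, hwf]; exact Nat.zero_le _
      · exact (hcov g ⟨hg, hgf⟩).trans (cnt_mono (fun i => (hK i).2) g)
    · obtain ⟨D, hD, hcov⟩ := ih ((M.E \ {f}).ncard + W w (M.E \ {f})) (by omega) (M ／ {f}) hG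
        (hno.contract hf) w k rfl (fun e he => hwk e he.1) (by
          intro C hC
          obtain ⟨C', hC', hCC', _⟩ := circuit_lift_contract hC
          exact (W_mono w (hfin.subset hC'.subset_ground) hCC').trans (hk C' hC'))
      refine ⟨D, fun i => (hD i).of_contract, fun g hg => ?_⟩
      by_cases hgf : g = f
      · rw [hgf, hwf]; exact Nat.zero_le _
      · exact hcov g ⟨hg, hgf⟩
  push Not at hz
  have hw1 : ∀ e ∈ M.E, 1 ≤ w e := fun e he => Nat.one_le_iff_ne_zero.2 (hz e he)
  have hk1 : 1 ≤ k := (hw1 e0 he0).trans (hwk e0 he0)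
  obtain ⟨k', rfl⟩ : ∃ k', k = k' + 1 := ⟨k - 1, by omega⟩
  by_cases hful : ∃ e ∈ M.E, w e = k' + 1
  · -- all cocircuits through e
    obtain ⟨e, he, hwe⟩ := hful
    obtain ⟨D, hD, hcov⟩ := lemos (M.E.ncard + W w M.E) M hM e he w (k' + 1) rfl (by
      intro C hC heC
      have hCf : C.Finite := hfin.subset hC.subset_ground
      have hs : C = {e} ∪ (C \ {e}) := (union_sdiff_cancel (by simpa using heC)).symm
      have a1 : W w C = W w {e} + W w (C \ {e}) := by
        conv_lhs => rw [hs]
        exact W_union w (finite_singleton e) hCf.sdiff disjoint_sdiff_right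
      have a2 := le_W w (finite_singleton e) (x := e) rfl
      have a3 := hk C hC
      omega)
    refine ⟨D, fun i => (hD i).1, fun f hf => ?_⟩
    by_cases hfe : f = e
    · subst hfe
      have : cnt D f = k' + 1 := by
        unfold cnt
        have : {i : Fin (k' + 1) | f ∈ D i} = univ := by
          ext i; simp [(hD i).2]
        rw [this, ncard_univ]; simp
      omega
    · exact hcov f hf hfe
  push Not at hful
  obtain ⟨D0, hD0, hD0c⟩ := transversal hM hno w hw1 (k' + 1) hk
  obtain ⟨d, hd⟩ := hD0.nonempty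
  have hdE := hD0.subset_ground hd
  have hlt := W_low_one w (D := D0) hfin hdE hd (hw1 d hdE)
  obtain ⟨D, hD, hcov⟩ := ih (M.E.ncard + W (low w D0) M.E) (by omega) M hM hno (low w D0) k' rfl
    (by
      intro e he
      have a1 := low_le w D0 e
      have a2 := hwk e he
      have a3 := hful e he
      omega)
    (by
      intro C hC
      have hCf : C.Finite := hfin.subset hC.subset_ground
      by_cases hheavy : 2 * (k' + 1) ≤ W w C + 1
      · have hnt := hC.isCocircuit_inter_nontrivial hD0 (hD0c C hC hheavy)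
        obtain ⟨x, hx, y, hy, hxy⟩ := hnt
        have b1 := W_low_two w (D := D0) hCf hx.1 hx.2 (hw1 x (hC.subset_ground hx.1)) hy.1 hy.2
          (hw1 y (hC.subset_ground hy.1)) hxy
        have b2 := hk C hC
        omega
      · have b3 : W (low w D0) C ≤ W w C := by
          rw [W_eq _ hCf, W_eq _ hCf]
          exact Finset.sum_le_sum (fun z _ => low_le w D0 z)
        omega)
  refine ⟨Fin.cons D0 D, ?_, ?_⟩
  · intro i
    refine Fin.cases ?_ (fun j => ?_) i
    · exact hD0
    · exact hD j
  · intro f hf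
    have c1 := hcov f hf
    rw [cnt_cons]
    by_cases hfD : f ∈ D0
    · rw [low_of_mem w hfD] at c1
      rw [if_pos hfD]; omega
    · rw [low_of_notMem w hfD] at c1
      rw [if_neg hfD]; omega

end H211.MC
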