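import Pool.Agent.H211R2.MC.Main

set_option autoImplicit false

/-! Representable matroids: regular matroids and binary matroids without Fano minor. -/

namespace H211.MC

universe v

open Set Matroid

variable {α : Type*}

/-- `M` is represented by the columns `v e` in `K ^ n`. -/
def Representable (K : Type*) [Field K] (M : Matroid α) : Prop :=
  ∃ (n : ℕ) (v : α → Fin n → K), ∀ I ⊆ M.E, M.Indep I ↔ LinearIndepOn K v I

/-- the Fano configuration: seven elements with the seven lines of the Fano plane -/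
def Fano (N : Matroid α) : Prop :=
  ∃ p a₁ a₂ a₃ b₁ b₂ b₃ : α, a₁ ≠ a₂ ∧ a₁ ≠ a₃ ∧ a₂ ≠ a₃ ∧
    N.IsCircuit {a₁, a₂, a₃} ∧ p ∉ N.closure {a₁, a₂, a₃} ∧
    N.IsCircuit {p, a₁, b₁} ∧ N.IsCircuit {p, a₂, b₂} ∧ N.IsCircuit {p, a₃, b₃} ∧
    N.IsCircuit {b₁, b₂, a₃} ∧ N.IsCircuit {b₁, b₃, a₂} ∧ N.IsCircuit {b₂, b₃, a₁}

/-- representation in a general vector space -/
def RepBy (K : Type*) [Field K] {V : Type*} [AddCommGroup V] [Module K V] (N : Matroid α)
    (u : α → V) : Prop := ∀ I ⊆ N.E, N.Indep I ↔ LinearIndepOn K u I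

lemma rep_contract {K : Type v} [Field K] {M : Matroid α} (h : Representable K M) {X : Set α}
    (hX : X ⊆ M.E) : ∃ (V : Type v) (_ : AddCommGroup V) (_ : Module K V) (u : α → V),
      RepBy K (M ／ X) u := by
  obtain ⟨n, v, hv⟩ := h
  obtain ⟨J, hJ⟩ := M.exists_isBasis X
  refine ⟨(Fin n → K) ⧸ (Submodule.span K (v '' J)), inferInstance, inferInstance,
    (Submodule.mkQ (Submodule.span K (v '' J))) ∘ v, ?_⟩
  intro I hI
  have hI' : I ⊆ M.E \ X := hI
  have hdj : Disjoint X I := by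
    rw [Set.disjoint_right]; exact fun z hz => (hI' hz).2
  rw [hJ.contract_indep_iff_of_disjoint hdj,
    hv _ (union_subset (hI'.trans sdiff_subset) (hJ.indep.subset_ground)), union_comm,
    linearIndepOn_union_iff_quotient (hdj.mono_left hJ.subset)]
  have h1 : LinearIndepOn K v J := (hv J hJ.indep.subset_ground).1 hJ.indep
  exact ⟨fun h => h.2, fun h => ⟨h1, h⟩⟩

section vec

variable {K : Type*} [Field K] {V : Type*} [AddCommGroup V] [Module K V] {N : Matroid α} {u : α → V}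

lemma pair_indep {x y : α} (hxy : x ≠ y) (h : LinearIndepOn K u {x, y}) {s t : K}
    (h0 : s • u x + t • u y = 0) : s = 0 ∧ t = 0 := by
  rw [LinearIndepOn.pair_iff u hxy] at h
  exact h s t h0

lemma triple_indep {x y z : α} (hxy : x ≠ y) (hxz : x ≠ z) (hyz : y ≠ z)
    (h : LinearIndepOn K u {x, y, z}) {r s t : K}
    (h0 : r • u x + s • u y + t • u z = 0) : r = 0 ∧ s = 0 ∧ t = 0 := by
  classical
  have h2 := linearIndepOn_iff'.1 h
  have hf : (↑({x, y, z} : Finset α) : Set α) ⊆ ({x, y, z} : Set α) := by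
    intro w hw; simpa using hw
  have h3 := h2 {x, y, z} (fun w => if w = x then r else if w = y then s else t) hf (by
    rw [Finset.sum_insert (by simp [hxy, hxz]), Finset.sum_insert (by simp [hyz]),
      Finset.sum_singleton]
    simp only [if_true, if_neg hxy.symm, if_neg hxz.symm, if_neg hyz.symm]
    rw [← add_assoc]; exact h0)
  have hx := h3 x (by simp)
  have hy := h3 y (by simp)
  have hz := h3 z (by simp)
  simp only [if_true, if_neg hxy.symm, if_neg hxz.symm, if_neg hyz.symm] at hx hy hz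
  exact ⟨hx, hy, hz⟩

lemma triple_dep {x y z : α} (hxy : x ≠ y) (hxz : x ≠ z) (hyz : y ≠ z)
    (h : ¬ LinearIndepOn K u {x, y, z}) :
    ∃ r s t : K, r • u x + s • u y + t • u z = 0 ∧ (r ≠ 0 ∨ s ≠ 0 ∨ t ≠ 0) := by
  classical
  rw [linearIndepOn_iff'] at h
  push Not at h
  obtain ⟨S, g, hS, hsum, i, hi, hgi⟩ := h
  have hS' : S ⊆ ({x, y, z} : Finset α) := by
    intro w hw
    have := hS hw
    simpa using this
  set g' : α → K := fun w => if w ∈ S then g w else 0 with hg'
  have h1 : ∑ w ∈ ({x, y, z} : Finset α), g' w • u w = 0 := by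
    rw [← Finset.sum_subset hS']
    · rw [← hsum]
      apply Finset.sum_congr rfl
      intro w hw
      simp [hg', hw]
    · intro w _ hw
      simp [hg', hw]
  rw [Finset.sum_insert (by simp [hxy, hxz]), Finset.sum_insert (by simp [hyz]),
      Finset.sum_singleton, ← add_assoc] at h1
  refine ⟨g' x, g' y, g' z, h1, ?_⟩
  have hi' := hS' hi
  have hgi' : g' i ≠ 0 := by simp [hg', hi, hgi]
  simp only [Finset.mem_insert, Finset.mem_singleton] at hi'
  rcases hi' with rfl | rfl | rfl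
  · exact Or.inl hgi'
  · exact Or.inr (Or.inl hgi')
  · exact Or.inr (Or.inr hgi')

/-- a three element circuit gives a relation with nonzero coefficients -/
lemma circuit_rel (hu : RepBy K N u) {x y z : α} (hxy : x ≠ y) (hxz : x ≠ z) (hyz : y ≠ z)
    (hC : N.IsCircuit {x, y, z}) :
    ∃ s t : K, s ≠ 0 ∧ t ≠ 0 ∧ u z = s • u x + t • u y := by
  have hE := hC.subset_ground
  have hdep : ¬ LinearIndepOn K u {x, y, z} := by
    rw [← hu _ hE]; exact hC.not_indep
  obtain ⟨r, s, t, h0, hne⟩ := triple_dep hxy hxz hyz hdep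
  have i1 : LinearIndepOn K u {x, y} := by
    rw [← hu _ (Set.Subset.trans (by intro w hw; simp at hw ⊢; tauto) hE)]
    apply hC.ssubset_indep
    rw [ssubset_iff_of_subset (by intro w hw; simp at hw ⊢; tauto)]
    exact ⟨z, by simp, by simp [hxz.symm, hyz.symm]⟩
  have i2 : LinearIndepOn K u {x, z} := by
    rw [← hu _ (Set.Subset.trans (by intro w hw; simp at hw ⊢; tauto) hE)]
    apply hC.ssubset_indep
    rw [ssubset_iff_of_subset (by intro w hw; simp at hw ⊢; tauto)]
    exact ⟨y, by simp, by simp [hxy.symm, hyz]⟩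
  have i3 : LinearIndepOn K u {y, z} := by
    rw [← hu _ (Set.Subset.trans (by intro w hw; simp at hw ⊢; tauto) hE)]
    apply hC.ssubset_indep
    rw [ssubset_iff_of_subset (by intro w hw; simp at hw ⊢; tauto)]
    exact ⟨x, by simp, by simp [hxy, hxz]⟩
  have ht : t ≠ 0 := by
    rintro rfl
    rw [zero_smul, add_zero] at h0
    obtain ⟨h1, h2⟩ := pair_indep hxy i1 h0
    rcases hne with h | h | h
    · exact h h1
    · exact h h2
    · exact h rfl
  have hs : s ≠ 0 := by
    rintro rfl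
    rw [zero_smul, add_zero] at h0
    exact ht (pair_indep hxz i2 h0).2
  have hr : r ≠ 0 := by
    rintro rfl
    rw [zero_smul, zero_add] at h0
    exact ht (pair_indep hyz i3 h0).2
  refine ⟨-(r / t), -(s / t), neg_ne_zero.2 (div_ne_zero hr ht), neg_ne_zero.2 (div_ne_zero hs ht), ?_⟩
  have h1 : t • u z = -(r • u x) - s • u y := by
    have : r • u x + s • u y + t • u z - (r • u x + s • u y) = 0 - (r • u x + s • u y) := by rw [h0]
    rw [add_sub_cancel_left] at this
    rw [this]; abel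
  have h2 : u z = t⁻¹ • (t • u z) := by rw [smul_smul, inv_mul_cancel₀ ht, one_smul]
  rw [h2, h1, smul_sub, smul_neg, smul_smul, smul_smul, neg_smul, neg_smul, div_eq_inv_mul,
    div_eq_inv_mul]
  abel

end vec

/-- distinctness in a seven point configuration -/
lemma seven_distinct {N : Matroid α} {p a₁ a₂ a₃ b₁ b₂ b₃ : α}
    (_h12 : a₁ ≠ a₂) (h13 : a₁ ≠ a₃) (h23 : a₂ ≠ a₃)
    (hc : N.IsCircuit {a₁, a₂, a₃}) (hp : p ∉ N.closure {a₁, a₂, a₃})
    (c1 : N.IsCircuit {p, a₁, b₁}) (c2 : N.IsCircuit {p, a₂, b₂}) (c3 : N.IsCircuit {p, a₃, b₃}) :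
    (p ≠ a₁ ∧ p ≠ a₂ ∧ p ≠ a₃) ∧ N.Indep {p, a₁, a₂} ∧
    (p ≠ b₁ ∧ a₁ ≠ b₁) ∧ (p ≠ b₂ ∧ a₂ ≠ b₂) ∧ (p ≠ b₃ ∧ a₃ ≠ b₃) := by
  have hE := hc.subset_ground
  have hpE : p ∈ N.E := c1.subset_ground (by simp)
  have hpn : ∀ a ∈ ({a₁, a₂, a₃} : Set α), p ≠ a := by
    intro a ha h
    apply hp
    rw [h]
    exact N.mem_closure_of_mem ha hE
  have key : ∀ a b, a ∈ ({a₁, a₂, a₃} : Set α) → N.IsCircuit {p, a, b} → p ≠ b ∧ a ≠ b := by
    intro a b ha hC
    have hbad : ¬ N.IsCircuit {p, a} := by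
      intro hC2
      apply hp
      have h1 := hC2.mem_closure_sdiff_singleton_of_mem (e := p) (by simp)
      refine N.closure_subset_closure ?_ h1
      rintro z ⟨hz, hzp⟩
      rcases hz with hz | hz
      · exact absurd hz hzp
      · rw [mem_singleton_iff.1 hz]; exact ha
    constructor
    · rintro rfl
      apply hbad
      have : ({p, a, p} : Set α) = {p, a} := by ext z; simp; tauto
      rwa [this] at hC
    · rintro rfl
      apply hbad
      have : ({p, a, a} : Set α) = {p, a} := by ext z; simp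
      rwa [this] at hC
  refine ⟨⟨hpn a₁ (by simp), hpn a₂ (by simp), hpn a₃ (by simp)⟩, ?_, key a₁ b₁ (by simp) c1,
    key a₂ b₂ (by simp) c2, key a₃ b₃ (by simp) c3⟩
  have h1 : N.Indep {a₁, a₂} := by
    apply hc.ssubset_indep
    rw [ssubset_iff_of_subset (by intro w hw; simp at hw ⊢; tauto)]
    exact ⟨a₃, by simp, by simp [h13.symm, h23.symm]⟩
  have h2 : p ∉ N.closure {a₁, a₂} := fun h => hp (N.closure_subset_closure (by
    intro w hw; simp at hw ⊢; tauto) h)
  exact (h1.notMem_closure_iff_of_notMem (by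
    rintro (h | h)
    · exact hpn a₁ (by simp) h
    · exact hpn a₂ (by simp) (mem_singleton_iff.1 h)) hpE).1 h2

lemma circuit_of_triple {N : Matroid α} {x y z : α} (hE : ({x, y, z} : Set α) ⊆ N.E)
    (hd : ¬ N.Indep {x, y, z}) (h1 : N.Indep {x, y}) (h2 : N.Indep {x, z}) (h3 : N.Indep {y, z}) :
    N.IsCircuit {x, y, z} := by
  rw [isCircuit_iff_forall_ssubset]
  refine ⟨⟨hd, hE⟩, fun I hI => ?_⟩
  obtain ⟨t, ht, htI⟩ := exists_of_ssubset hI
  have hsub := hI.subset
  rcases ht with rfl | rfl | ht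
  · apply h3.subset
    intro w hw
    rcases hsub hw with rfl | h | h
    · exact absurd hw htI
    · exact Or.inl h
    · exact Or.inr h
  · apply h2.subset
    intro w hw
    rcases hsub hw with h | rfl | h
    · exact Or.inl h
    · exact absurd hw htI
    · exact Or.inr h
  · have htz : t = z := ht
    subst htz
    apply h1.subset
    intro w hw
    rcases hsub hw with h | h | h
    · exact Or.inl h
    · exact Or.inr h
    · have : w = t := h
      rw [this] at hw
      exact absurd hw htI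

lemma zmod2 (s : ZMod 2) : s = 0 ∨ s = 1 := by
  fin_cases s
  · exact Or.inl rfl
  · exact Or.inr rfl

lemma pair_indep_two {V : Type*} [AddCommGroup V] [Module (ZMod 2) V] {u : α → V} {x y : α}
    (hxy : x ≠ y) (hx : u x ≠ 0) (hy : u y ≠ 0) (h : u x + u y ≠ 0) :
    LinearIndepOn (ZMod 2) u {x, y} := by
  rw [LinearIndepOn.pair_iff u hxy]
  intro s t h0
  rcases zmod2 s with rfl | rfl <;> rcases zmod2 t with rfl | rfl
  · exact ⟨rfl, rfl⟩
  · rw [zero_smul, zero_add, one_smul] at h0; exact absurd h0 hy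
  · rw [zero_smul, add_zero, one_smul] at h0; exact absurd h0 hx
  · rw [one_smul, one_smul] at h0; exact absurd h0 h

lemma triple_circuit_two {V : Type*} [AddCommGroup V] [Module (ZMod 2) V] {N : Matroid α} {u : α → V}
    (hu : RepBy (ZMod 2) N u) {x y z : α} (hE : ({x, y, z} : Set α) ⊆ N.E)
    (hx : u x ≠ 0) (hy : u y ≠ 0) (hz : u z ≠ 0) (h0 : u x + u y + u z = 0) :
    N.IsCircuit {x, y, z} := by
  have two : ∀ v : V, v + v = 0 := by
    intro v
    have : (2 : ZMod 2) • v = 0 := by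
      have : (2 : ZMod 2) = 0 := rfl
      rw [this, zero_smul]
    rwa [two_smul] at this
  have hxy : x ≠ y := by
    rintro rfl
    rw [two, zero_add] at h0; exact hz h0
  have hxz : x ≠ z := by
    rintro rfl
    rw [add_right_comm, two, zero_add] at h0; exact hy h0
  have hyz : y ≠ z := by
    rintro rfl
    rw [add_assoc, two, add_zero] at h0; exact hx h0
  have sub : ∀ a b : α, a ∈ ({x, y, z} : Set α) → b ∈ ({x, y, z} : Set α) →
      ({a, b} : Set α) ⊆ N.E := by
    intro a b ha hb w hw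
    rcases hw with rfl | hw
    · exact hE ha
    · rw [mem_singleton_iff.1 hw]; exact hE hb
  apply circuit_of_triple hE
  · rw [hu _ hE]
    intro hli
    have := triple_indep (K := ZMod 2) (r := 1) (s := 1) (t := 1) hxy hxz hyz hli
      (by rw [one_smul, one_smul, one_smul]; exact h0)
    exact one_ne_zero this.1
  · rw [hu _ (sub x y (by simp) (by simp))]
    apply pair_indep_two hxy hx hy
    intro h; rw [h, zero_add] at h0; exact hz h0
  · rw [hu _ (sub x z (by simp) (by simp))]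
    apply pair_indep_two hxz hx hz
    intro h; rw [add_right_comm, h, zero_add] at h0; exact hy h0
  · rw [hu _ (sub y z (by simp) (by simp))]
    apply pair_indep_two hyz hy hz
    intro h; rw [add_assoc, h, add_zero] at h0; exact hx h0

/-- in a binary matroid a seven point configuration is a Fano plane -/
lemma seven_fano {V : Type*} [AddCommGroup V] [Module (ZMod 2) V] {N : Matroid α} {u : α → V}
    (hu : RepBy (ZMod 2) N u) (h : SevenPoint N) : Fano N := by
  obtain ⟨p, a₁, a₂, a₃, b₁, b₂, b₃, h12, h13, h23, hc, hp, c1, c2, c3⟩ := h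
  obtain ⟨⟨p1, p2, p3⟩, hind, ⟨q1, r1⟩, ⟨q2, r2⟩, ⟨q3, r3⟩⟩ :=
    seven_distinct h12 h13 h23 hc hp c1 c2 c3
  have two : ∀ v : V, v + v = 0 := by
    intro v
    have : (2 : ZMod 2) • v = 0 := by
      have : (2 : ZMod 2) = 0 := rfl
      rw [this, zero_smul]
    rwa [two_smul] at this
  have rel : ∀ x y z, x ≠ y → x ≠ z → y ≠ z → N.IsCircuit {x, y, z} → u z = u x + u y := by
    intro x y z hxy hxz hyz hC
    obtain ⟨s, t, hs, ht, h⟩ := circuit_rel hu hxy hxz hyz hC
    have hs1 : s = 1 := (zmod2 s).resolve_left hs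
    have ht1 : t = 1 := (zmod2 t).resolve_left ht
    rw [h, hs1, ht1, one_smul, one_smul]
  have e3 := rel _ _ _ h12 h13 h23 hc
  have f1 := rel _ _ _ p1 q1 r1 c1
  have f2 := rel _ _ _ p2 q2 r2 c2
  have f3 := rel _ _ _ p3 q3 r3 c3
  have hli : LinearIndepOn (ZMod 2) u {p, a₁, a₂} := (hu _ hind.subset_ground).1 hind
  have nz : ∀ r s t : ZMod 2, (r ≠ 0 ∨ s ≠ 0 ∨ t ≠ 0) → r • u p + s • u a₁ + t • u a₂ ≠ 0 := by
    intro r s t hne h0
    obtain ⟨h1, h2, h3⟩ := triple_indep p1 p2 h12 hli h0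
    rcases hne with h | h | h
    · exact h h1
    · exact h h2
    · exact h h3
  have one : (1 : ZMod 2) ≠ 0 := one_ne_zero
  have nb1 : u b₁ ≠ 0 := by
    rw [f1]; have := nz 1 1 0 (Or.inl one); simpa using this
  have nb2 : u b₂ ≠ 0 := by
    rw [f2]; have := nz 1 0 1 (Or.inl one); simpa using this
  have nb3 : u b₃ ≠ 0 := by
    rw [f3, e3, ← add_assoc]; have := nz 1 1 1 (Or.inl one); simpa using this
  have na1 : u a₁ ≠ 0 := by have := nz 0 1 0 (Or.inr (Or.inl one)); simpa using this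
  have na2 : u a₂ ≠ 0 := by have := nz 0 0 1 (Or.inr (Or.inr one)); simpa using this
  have na3 : u a₃ ≠ 0 := by
    rw [e3]; have := nz 0 1 1 (Or.inr (Or.inl one)); simpa using this
  have E1 : b₁ ∈ N.E := c1.subset_ground (by simp)
  have E2 : b₂ ∈ N.E := c2.subset_ground (by simp)
  have E3 : b₃ ∈ N.E := c3.subset_ground (by simp)
  have A1 : a₁ ∈ N.E := c1.subset_ground (by simp)
  have A2 : a₂ ∈ N.E := c2.subset_ground (by simp)
  have A3 : a₃ ∈ N.E := c3.subset_ground (by simp)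
  have sub3 : ∀ x y z, x ∈ N.E → y ∈ N.E → z ∈ N.E → ({x, y, z} : Set α) ⊆ N.E := by
    intro x y z hx hy hz w hw
    rcases hw with rfl | rfl | hw
    · exact hx
    · exact hy
    · rw [mem_singleton_iff.1 hw]; exact hz
  refine ⟨p, a₁, a₂, a₃, b₁, b₂, b₃, h12, h13, h23, hc, hp, c1, c2, c3, ?_, ?_, ?_⟩
  · apply triple_circuit_two hu (sub3 _ _ _ E1 E2 A3) nb1 nb2 na3
    rw [f1, f2, e3]
    have : u p + u a₁ + (u p + u a₂) + (u a₁ + u a₂) = (u p + u p) + (u a₁ + u a₁) + (u a₂ + u a₂) := by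
      abel
    rw [this]; simp only [two, add_zero]
  · apply triple_circuit_two hu (sub3 _ _ _ E1 E3 A2) nb1 nb3 na2
    rw [f1, f3, e3]
    have : u p + u a₁ + (u p + (u a₁ + u a₂)) + u a₂ = (u p + u p) + (u a₁ + u a₁) + (u a₂ + u a₂) := by
      abel
    rw [this]; simp only [two, add_zero]
  · apply triple_circuit_two hu (sub3 _ _ _ E2 E3 A1) nb2 nb3 na1
    rw [f2, f3, e3]
    have : u p + u a₂ + (u p + (u a₁ + u a₂)) + u a₁ = (u p + u p) + (u a₁ + u a₁) + (u a₂ + u a₂) := by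
      abel
    rw [this]; simp only [two, add_zero]

/-- the Fano plane is not representable over a field in which `2 ≠ 0` -/
lemma no_fano {K : Type*} [Field K] (h2 : (2 : K) ≠ 0) {V : Type*} [AddCommGroup V] [Module K V]
    {N : Matroid α} {u : α → V} (hu : RepBy K N u) (h : Fano N) : False := by
  obtain ⟨p, a₁, a₂, a₃, b₁, b₂, b₃, h12, h13, h23, hc, hp, c1, c2, c3, d1, d2, d3⟩ := h
  obtain ⟨⟨p1, p2, p3⟩, hind, ⟨q1, r1⟩, ⟨q2, r2⟩, ⟨q3, r3⟩⟩ :=
    seven_distinct h12 h13 h23 hc hp c1 c2 c3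
  have hli : LinearIndepOn K u {p, a₁, a₂} := (hu _ hind.subset_ground).1 hind
  have nz : ∀ r s t : K, r • u p + s • u a₁ + t • u a₂ = 0 → r = 0 ∧ s = 0 ∧ t = 0 :=
    fun r s t h0 => triple_indep p1 p2 h12 hli h0
  obtain ⟨x, y, hx, hy, e3⟩ := circuit_rel hu h12 h13 h23 hc
  obtain ⟨s1, t1, hs1, ht1, f1⟩ := circuit_rel hu p1 q1 r1 c1
  obtain ⟨s2, t2, hs2, ht2, f2⟩ := circuit_rel hu p2 q2 r2 c2
  obtain ⟨s3, t3, hs3, ht3, f3⟩ := circuit_rel hu p3 q3 r3 c3
  -- distinctness of the other lines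
  have nb : ∀ w, u w = 0 → w ∈ N.E → ¬ N.Indep {w} := by
    intro w hw hwE hi
    rw [hu _ (by simpa using hwE)] at hi
    have := (linearIndepOn_singleton_iff (R := K) (v := u) (i := w)).1 hi
    exact this hw
  have b12 : b₁ ≠ b₂ := by
    rintro rfl
    have h0 : (s1 - s2) • u p + t1 • u a₁ + (-t2) • u a₂ = 0 := by
      have : s1 • u p + t1 • u a₁ - (s2 • u p + t2 • u a₂) = 0 := by rw [← f1, ← f2, sub_self]
      rw [← this, sub_smul, neg_smul]; abel
    exact ht1 (nz _ _ _ h0).2.1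
  have b13 : b₁ ≠ b₃ := by
    rintro rfl
    have h0 : (s1 - s3) • u p + (t1 - t3 * x) • u a₁ + (-(t3 * y)) • u a₂ = 0 := by
      have : s1 • u p + t1 • u a₁ - (s3 • u p + t3 • u a₃) = 0 := by rw [← f1, ← f3, sub_self]
      rw [e3, smul_add, smul_smul, smul_smul] at this
      rw [← this, sub_smul, sub_smul, neg_smul]; abel
    exact mul_ne_zero ht3 hy (neg_eq_zero.1 (nz _ _ _ h0).2.2)
  have b23 : b₂ ≠ b₃ := by
    rintro rfl
    have h0 : (s2 - s3) • u p + (-(t3 * x)) • u a₁ + (t2 - (t3 * y)) • u a₂ = 0 := by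
      have : s2 • u p + t2 • u a₂ - (s3 • u p + t3 • u a₃) = 0 := by rw [← f2, ← f3, sub_self]
      rw [e3, smul_add, smul_smul, smul_smul] at this
      rw [← this, sub_smul, sub_smul, neg_smul]; abel
    exact mul_ne_zero ht3 hx (neg_eq_zero.1 (nz _ _ _ h0).2.1)
  have ab : ∀ a b, a ∈ ({a₁, a₂, a₃} : Set α) → (b ∈ ({b₁, b₂, b₃} : Set α)) → b ≠ a := by
    intro a b ha hb hba
    -- b in the closure of the line of a's would put p there
    have hline : ∀ a' b', a' ∈ ({a₁, a₂, a₃} : Set α) → N.IsCircuit {p, a', b'} →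
        b' ∉ N.closure {a₁, a₂, a₃} := by
      intro a' b' ha' hC hb'
      apply hp
      have h1 := hC.mem_closure_sdiff_singleton_of_mem (e := p) (by simp)
      refine N.closure_subset_closure_of_subset_closure ?_ h1
      rintro z ⟨hz, hzp⟩
      rcases hz with hz | rfl | hz
      · exact absurd hz hzp
      · exact N.mem_closure_of_mem ha' hc.subset_ground
      · rw [mem_singleton_iff.1 hz]; exact hb'
    have hcl : b ∈ N.closure {a₁, a₂, a₃} := by
      rw [hba]; exact N.mem_closure_of_mem ha hc.subset_ground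
    rcases hb with rfl | rfl | hb
    · exact hline a₁ _ (by simp) c1 hcl
    · exact hline a₂ _ (by simp) c2 hcl
    · rw [mem_singleton_iff.1 hb] at hcl
      exact hline a₃ _ (by simp) c3 hcl
  obtain ⟨g1, k1, hg1, hk1, m1⟩ := circuit_rel hu b12 (ab a₃ b₁ (by simp) (by simp))
    (ab a₃ b₂ (by simp) (by simp)) d1
  obtain ⟨g2, k2, hg2, hk2, m2⟩ := circuit_rel hu b13 (ab a₂ b₁ (by simp) (by simp))
    (ab a₂ b₃ (by simp) (by simp)) d2
  obtain ⟨g3, k3, hg3, hk3, m3⟩ := circuit_rel hu b23 (ab a₁ b₂ (by simp) (by simp))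
    (ab a₁ b₃ (by simp) (by simp)) d3
  have n1 : (g1 * s1 + k1 * s2) • u p + (g1 * t1 - x) • u a₁ + (k1 * t2 - y) • u a₂ = 0 := by
    have h0 : g1 • u b₁ + k1 • u b₂ - u a₃ = 0 := by rw [← m1, sub_self]
    rw [f1, f2, e3] at h0
    rw [← h0]
    simp only [smul_add, smul_smul, add_smul, sub_smul]
    abel
  have n2 : (g2 * s1 + k2 * s3) • u p + (g2 * t1 + k2 * t3 * x) • u a₁ +
      (k2 * t3 * y - 1) • u a₂ = 0 := by
    have h0 : g2 • u b₁ + k2 • u b₃ - u a₂ = 0 := by rw [← m2, sub_self]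
    rw [f1, f3, e3] at h0
    rw [← h0]
    simp only [smul_add, smul_smul, add_smul, sub_smul, one_smul, mul_assoc]
    abel
  have n3 : (g3 * s2 + k3 * s3) • u p + (k3 * t3 * x - 1) • u a₁ +
      (g3 * t2 + k3 * t3 * y) • u a₂ = 0 := by
    have h0 : g3 • u b₂ + k3 • u b₃ - u a₁ = 0 := by rw [← m3, sub_self]
    rw [f2, f3, e3] at h0
    rw [← h0]
    simp only [smul_add, smul_smul, add_smul, sub_smul, one_smul, mul_assoc]
    abel
  obtain ⟨z1, z2, z3⟩ := nz _ _ _ n1
  obtain ⟨z4, z5, _⟩ := nz _ _ _ n2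
  obtain ⟨z7, _, z9⟩ := nz _ _ _ n3
  -- t1 s3 = t3 x s1
  have w1 : t1 * s3 = t3 * x * s1 := by
    have h : g2 * (t1 * s3) = g2 * (t3 * x * s1) := by
      have h1 : g2 * t1 = - (k2 * t3 * x) := by linear_combination z5
      have h3 : k2 * s3 = - (g2 * s1) := by linear_combination z4
      calc g2 * (t1 * s3) = (g2 * t1) * s3 := by ring
        _ = -(k2 * s3) * (t3 * x) := by rw [h1]; ring
        _ = g2 * (t3 * x * s1) := by rw [h3]; ring
    exact mul_left_cancel₀ hg2 h
  have w2 : t2 * s3 = t3 * y * s2 := by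
    have h : g3 * (t2 * s3) = g3 * (t3 * y * s2) := by
      have h1 : g3 * t2 = - (k3 * t3 * y) := by linear_combination z9
      have h3 : k3 * s3 = - (g3 * s2) := by linear_combination z7
      calc g3 * (t2 * s3) = (g3 * t2) * s3 := by ring
        _ = -(k3 * s3) * (t3 * y) := by rw [h1]; ring
        _ = g3 * (t3 * y * s2) := by rw [h3]; ring
    exact mul_left_cancel₀ hg3 h
  have w3 : x * s1 * t2 + y * s2 * t1 = 0 := by
    have hx' : x = g1 * t1 := by linear_combination -z2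
    have hy' : y = k1 * t2 := by linear_combination -z3
    rw [hx', hy']
    linear_combination (t1 * t2) * z1
  have w4 : 2 * (x * y * s1 * s2 * t3) = 0 := by
    have : s3 * (x * s1 * t2 + y * s2 * t1) = 2 * (x * y * s1 * s2 * t3) := by
      calc s3 * (x * s1 * t2 + y * s2 * t1) = x * s1 * (t2 * s3) + y * s2 * (t1 * s3) := by ring
        _ = 2 * (x * y * s1 * s2 * t3) := by rw [w1, w2]; ring
    rw [← this, w3, mul_zero]
  exact (mul_ne_zero h2 (mul_ne_zero (mul_ne_zero (mul_ne_zero (mul_ne_zero hx hy) hs1) hs2) ht3)) w4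

end H211.MC
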