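import Mathlib

set_option autoImplicit false

/-! Natural valued rank of a finite matroid, and skew sets. -/

namespace H211.MC

open Set Matroid

variable {α : Type*}

/-- natural valued rank -/
noncomputable def rk (M : Matroid α) (X : Set α) : ℕ := (M.eRk X).toNat

variable {M : Matroid α}

lemma cast_rk (M : Matroid α) [M.Finite] (X : Set α) : ((rk M X : ℕ) : ℕ∞) = M.eRk X := by
  unfold rk
  rw [ENat.natCast_toNat]
  rw [Matroid.eRk_ne_top_iff]
  exact M.isRkFinite_set X

lemma rk_mono (M : Matroid α) [M.Finite] {X Y : Set α} (h : X ⊆ Y) : rk M X ≤ rk M Y := by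
  have := M.eRk_mono h
  rw [← cast_rk, ← cast_rk] at this
  exact_mod_cast this

lemma rk_le_ground (M : Matroid α) [M.Finite] (X : Set α) : rk M X ≤ rk M M.E := by
  have := M.eRk_le_eRank X
  rw [Matroid.eRank_def, ← cast_rk, ← cast_rk] at this
  exact_mod_cast this

lemma rk_submod (M : Matroid α) [M.Finite] (X Y : Set α) :
    rk M (X ∩ Y) + rk M (X ∪ Y) ≤ rk M X + rk M Y := by
  have := M.eRk_inter_add_eRk_union_le X Y
  rw [← cast_rk, ← cast_rk, ← cast_rk, ← cast_rk] at this
  exact_mod_cast this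

lemma rk_closure (M : Matroid α) (X : Set α) : rk M (M.closure X) = rk M X := by
  unfold rk; rw [M.eRk_closure_eq]

lemma rk_union_closure_left (M : Matroid α) (X Y : Set α) :
    rk M (M.closure X ∪ Y) = rk M (X ∪ Y) := by
  unfold rk; rw [M.eRk_union_closure_left_eq]

lemma rk_union_closure_right (M : Matroid α) (X Y : Set α) :
    rk M (X ∪ M.closure Y) = rk M (X ∪ Y) := by
  unfold rk; rw [M.eRk_union_closure_right_eq]

lemma rk_empty (M : Matroid α) : rk M ∅ = 0 := by
  unfold rk; rw [M.eRk_empty]; rfl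

lemma rk_union_le (M : Matroid α) [M.Finite] (X Y : Set α) : rk M (X ∪ Y) ≤ rk M X + rk M Y := by
  have := rk_submod M X Y
  omega

lemma rk_insert_le (M : Matroid α) [M.Finite] (e : α) (X : Set α) :
    rk M (insert e X) ≤ rk M X + 1 := by
  have := M.eRk_insert_le_add_one e X
  rw [← cast_rk, ← cast_rk] at this
  exact_mod_cast this

lemma rk_insert_of_notMem (M : Matroid α) [M.Finite] {e : α} {X : Set α} (he : e ∈ M.E)
    (h : e ∉ M.closure X) : rk M (insert e X) = rk M X + 1 := by
  have := M.eRk_insert_eq_add_one ⟨he, h⟩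
  rw [← cast_rk, ← cast_rk] at this
  exact_mod_cast this

lemma rk_insert_of_mem (M : Matroid α) {e : α} {X : Set α} 
    (h : e ∈ M.closure X) : rk M (insert e X) = rk M X := by
  have h1 : rk M (insert e X) = rk M (M.closure (insert e X)) := (rk_closure M _).symm
  rw [h1, M.closure_insert_eq_of_mem_closure h, rk_closure]

lemma mem_closure_iff_rk (M : Matroid α) [M.Finite] {e : α} {X : Set α} (he : e ∈ M.E) :
    e ∈ M.closure X ↔ rk M (insert e X) = rk M X := by
  constructor
  · intro h; exact rk_insert_of_mem M h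
  · intro h
    by_contra hc
    have := rk_insert_of_notMem M he hc
    omega

lemma rk_indep (M : Matroid α) [M.Finite] {I : Set α} (hI : M.Indep I) : rk M I = I.ncard := by
  unfold rk
  rw [hI.eRk_eq_encard]
  rfl

lemma rk_circuit (M : Matroid α) [M.Finite] {C : Set α} (hC : M.IsCircuit C) :
    rk M C + 1 = C.ncard := by
  have h := hC.eRk_add_one_eq
  rw [← cast_rk, ← (M.ground_finite.subset hC.subset_ground).cast_ncard_eq] at h
  exact_mod_cast h

lemma indep_iff_rk (M : Matroid α) [M.Finite] {I : Set α} (hI : I ⊆ M.E) :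
    M.Indep I ↔ rk M I = I.ncard := by
  rw [Matroid.indep_iff_eRk_eq_encard, ← cast_rk, ← (M.ground_finite.subset hI).cast_ncard_eq]
  exact_mod_cast Iff.rfl

lemma rk_le_ncard (M : Matroid α) [M.Finite] {I : Set α} (hI : I.Finite) :
    rk M I ≤ I.ncard := by
  have := M.eRk_le_encard I
  rw [← cast_rk, ← hI.cast_ncard_eq] at this
  exact_mod_cast this

/-- closures from equality of ranks -/
lemma subset_closure_of_rk_le (M : Matroid α) [M.Finite] {X Y : Set α} (hXY : X ⊆ Y) (hY : Y ⊆ M.E)
    (h : rk M Y ≤ rk M X) : Y ⊆ M.closure X := by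
  intro e he
  rw [mem_closure_iff_rk M (hY he)]
  apply le_antisymm
  · exact (rk_mono M (insert_subset he hXY)).trans h
  · exact rk_mono M (subset_insert _ _)

/-- skewness is hereditary -/
lemma skew_mono (M : Matroid α) [M.Finite] {A B X Y : Set α}
    (h : rk M A + rk M B ≤ rk M (A ∪ B)) (hX : X ⊆ A) (hY : Y ⊆ B) :
    rk M X + rk M Y ≤ rk M (X ∪ Y) := by
  have h1 := rk_submod M (A ∪ Y) B
  have e1 : rk M (A ∪ B) ≤ rk M (A ∪ Y ∪ B) := rk_mono M (by
    intro z hz; rcases hz with hz | hz
    · exact Or.inl (Or.inl hz)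
    · exact Or.inr hz)
  have e2 : rk M Y ≤ rk M ((A ∪ Y) ∩ B) := rk_mono M (fun z hz => ⟨Or.inr hz, hY hz⟩)
  have h2 := rk_submod M (X ∪ Y) A
  have e3 : rk M (A ∪ Y) ≤ rk M (X ∪ Y ∪ A) := rk_mono M (by
    intro z hz; rcases hz with hz | hz
    · exact Or.inr hz
    · exact Or.inl (Or.inr hz))
  have e4 : rk M X ≤ rk M ((X ∪ Y) ∩ A) := rk_mono M (fun z hz => ⟨Or.inl hz, hX hz⟩)
  omega

lemma skew_circuit (M : Matroid α) [M.Finite] {A B C : Set α}
    (h : rk M A + rk M B ≤ rk M (A ∪ B)) (hC : M.IsCircuit C) (hCA : C ⊆ A ∪ B) :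
    C ⊆ A ∨ C ⊆ B := by
  by_contra hcon
  push Not at hcon
  obtain ⟨hA, hB⟩ := hcon
  have hfin : C.Finite := M.ground_finite.subset hC.subset_ground
  have h1 : M.Indep (C ∩ A) := by
    apply hC.ssubset_indep
    refine ⟨inter_subset_left, fun hh => hA (fun x hx => (hh hx).2)⟩
  have h2 : M.Indep (C \ A) := by
    apply hC.ssubset_indep
    refine ⟨sdiff_subset, fun hh => hB (fun x hx => ?_)⟩
    rcases hCA hx with h3 | h3
    · exact absurd h3 (hh hx).2
    · exact h3
  have h3 := skew_mono M h (X := C ∩ A) (Y := C \ A) inter_subset_right (by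
    intro x hx
    rcases hCA hx.1 with h3 | h3
    · exact absurd h3 hx.2
    · exact h3)
  rw [inter_union_sdiff, rk_indep M h1, rk_indep M h2] at h3
  have h4 := rk_circuit M hC
  have h5 : (C ∩ A).ncard + (C \ A).ncard = C.ncard := ncard_inter_add_ncard_sdiff_eq_ncard C A hfin
  omega

/-- if no circuit crosses, then ranks add -/
lemma rk_add_of_no_circuit (M : Matroid α) [M.Finite] {A B : Set α} (hA : A ⊆ M.E) (hB : B ⊆ M.E)
    (hdj : Disjoint A B)
    (h : ∀ C, M.IsCircuit C → C ⊆ A ∪ B → C ⊆ A ∨ C ⊆ B) :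
    rk M A + rk M B ≤ rk M (A ∪ B) := by
  obtain ⟨I, hI⟩ := M.exists_isBasis A
  obtain ⟨J, hJ⟩ := M.exists_isBasis B
  have hIJ : M.Indep (I ∪ J) := by
    rw [indep_iff_forall_subset_not_isCircuit (union_subset hI.indep.subset_ground hJ.indep.subset_ground)]
    intro C hCs hC
    rcases h C hC (hCs.trans (union_subset_union hI.subset hJ.subset)) with h1 | h1
    · apply hC.not_indep
      apply hI.indep.subset
      intro x hx
      rcases hCs hx with h2 | h2
      · exact h2
      · exact absurd (hJ.subset h2) (fun h3 => Set.disjoint_left.1 hdj (h1 hx) h3)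
    · apply hC.not_indep
      apply hJ.indep.subset
      intro x hx
      rcases hCs hx with h2 | h2
      · exact absurd (hI.subset h2) (fun h3 => Set.disjoint_left.1 hdj h3 (h1 hx))
      · exact h2
  have e1 : rk M A = I.ncard := by
    rw [← rk_indep M hI.indep]; unfold rk; rw [hI.eRk_eq_eRk]
  have e2 : rk M B = J.ncard := by
    rw [← rk_indep M hJ.indep]; unfold rk; rw [hJ.eRk_eq_eRk]
  have e3 : rk M (I ∪ J) = I.ncard + J.ncard := by
    rw [rk_indep M hIJ]
    apply ncard_union_eq
    · exact hdj.mono hI.subset hJ.subset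
    · exact M.ground_finite.subset hI.indep.subset_ground
    · exact M.ground_finite.subset hJ.indep.subset_ground
  have := rk_mono M (union_subset_union hI.subset hJ.subset)
  omega

/-- rank in a contraction -/
lemma rk_contract (M : Matroid α) [M.Finite] {X Y : Set α} (hX : X ⊆ M.E) (hY : Y ⊆ M.E \ X) :
    rk (M ／ X) Y + rk M X = rk M (Y ∪ X) := by
  obtain ⟨I, hI⟩ := M.exists_isBasis X
  obtain ⟨J, hJ⟩ := (M ／ X).exists_isBasis Y (by simpa using hY)
  have hind := hI.contract_indep_iff.1 hJ.indep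
  have e1 : rk (M ／ X) Y = J.ncard := by
    rw [← rk_indep _ hJ.indep]; unfold rk; rw [hJ.eRk_eq_eRk]
  have e2 : rk M X = I.ncard := by
    rw [← rk_indep M hI.indep]; unfold rk; rw [hI.eRk_eq_eRk]
  have hdj : Disjoint J I := (hind.2.symm.mono_right hI.subset)
  have e3 : rk M (J ∪ I) = J.ncard + I.ncard := by
    rw [rk_indep M hind.1]
    exact ncard_union_eq hdj (M.ground_finite.subset (subset_union_left.trans hind.1.subset_ground))
      (M.ground_finite.subset hI.indep.subset_ground)
  have e4 : rk M (Y ∪ X) ≤ rk M (J ∪ I) := by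
    have h1 : Y ∪ X ⊆ M.closure (J ∪ I) := by
      apply union_subset
      · intro y hy
        have hyE : y ∈ M.E := (hY hy).1
        by_cases hyJ : y ∈ J
        · exact M.mem_closure_of_mem (Or.inl hyJ) (by exact hind.1.subset_ground)
        rw [hind.1.mem_closure_iff]
        left
        have hnot : ¬ (M ／ X).Indep (insert y J) := by
          intro hh
          exact hyJ (hJ.mem_of_insert_indep hy hh)
        rw [hI.contract_indep_iff] at hnot
        rw [Matroid.dep_iff]
        refine ⟨fun hh => hnot ⟨by rwa [insert_union], ?_⟩, ?_⟩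
        · rw [Set.disjoint_right]
          intro z hz hz2
          rcases hz with rfl | hz
          · exact (hY hy).2 hz2
          · exact Set.disjoint_left.1 hind.2 hz2 hz
        · exact insert_subset hyE hind.1.subset_ground
      · exact hI.subset_closure.trans (M.closure_subset_closure subset_union_right)
    rw [← rk_closure M (J ∪ I)]
    exact rk_mono M h1
  have e5 : rk M (J ∪ I) ≤ rk M (Y ∪ X) := rk_mono M (union_subset_union hJ.subset hI.subset)
  omega

lemma rk_restrict (M : Matroid α) {R X : Set α} (h : X ⊆ R) : rk (M ↾ R) X = rk M X := by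
  unfold rk; rw [restrict_eRk_eq _ h]

lemma rk_delete (M : Matroid α) {D X : Set α} (h : X ⊆ M.E \ D) : rk (M ＼ D) X = rk M X := by
  rw [delete_eq_restrict, rk_restrict M h]

end H211.MC
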